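import Pool.Agent.Y701.GV.Form

/-!
Extensions of the field of constants of degree dividing `l - 1`.
-/

set_option autoImplicit false
set_option linter.all false
set_option maxHeartbeats 4000000

open FF Module

namespace Pool.Agent.Y701.GV

open Pool.Agent.W343.BSD Pool.Agent.Y701.QF
open Pool.Agent.Y701.PE (IsExp sub toC)
open Pool.Agent.H123R3.ZT Pool.Agent.Y701.CB

section uni

open PowerSeries

/-- the product over the roots of unity -/
theorem prod_roots {R : Type} [Field R] {ξ : R} {f : ℕ} (hf : f ≠ 0) (hξ : IsPrimitiveRoot ξ f)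
    {a b : ℕ → ℤ} {P Q : PowerSeries ℤ} (hP : IsExp a P)
    (hQ : IsExp b Q) (h : ∀ n, n ≠ 0 → b n = a (f * n)) :
    PowerSeries.map (Int.castRingHom R) (sub f Q) = ∏ j ∈ Finset.range f,
      rescale (ξ ^ j) (PowerSeries.map (Int.castRingHom R) P) := by
  classical
  set ζ : ℂ := Complex.exp (2 * Real.pi * Complex.I / f) with hζdef
  have hζ : IsPrimitiveRoot ζ f := Complex.isPrimitiveRoot_exp f hf
  set H : PowerSeries (Polynomial ℤ) := ∏ j ∈ Finset.range f,
    rescale ((Polynomial.X : Polynomial ℤ) ^ j) (PowerSeries.map Polynomial.C P) -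
      PowerSeries.map Polynomial.C (sub f Q) with hH
  have hmapr : ∀ {S : Type} [CommRing S] (φ : Polynomial ℤ →+* S) (u : Polynomial ℤ)
      (G : PowerSeries (Polynomial ℤ)), PowerSeries.map φ (rescale u G) =
        rescale (φ u) (PowerSeries.map φ G) := by
    intro S _ φ u G
    ext m
    rw [coeff_map, coeff_rescale, coeff_rescale, coeff_map, map_mul, map_pow]
  have hmapC : ∀ {S : Type} [CommRing S] (φ : Polynomial ℤ →+* S) (G : PowerSeries ℤ),
      PowerSeries.map φ (PowerSeries.map Polynomial.C G) =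
        PowerSeries.map (Int.castRingHom S) G := by
    intro S _ φ G
    ext m
    rw [coeff_map, coeff_map, coeff_map]
    exact congrFun (congrArg DFunLike.coe (RingHom.ext_int (φ.comp Polynomial.C)
      (Int.castRingHom S))) _
  have h1 : PowerSeries.map (Polynomial.aeval ζ : Polynomial ℤ →ₐ[ℤ] ℂ).toRingHom H = 0 := by
    rw [hH, map_sub, map_prod, sub_eq_zero]
    have hcP := Pool.Agent.Y701.PE.cc_toC hP.1
    have hcQ := Pool.Agent.Y701.PE.cc_toC hQ.1
    have e1 : ∀ j ∈ Finset.range f, PowerSeries.map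
        (Polynomial.aeval ζ : Polynomial ℤ →ₐ[ℤ] ℂ).toRingHom
        (rescale ((Polynomial.X : Polynomial ℤ) ^ j) (PowerSeries.map Polynomial.C P)) =
          rescale (ζ ^ j) (toC P) := by
      intro j _
      rw [hmapr, hmapC]
      congr 2
      show Polynomial.aeval ζ (Polynomial.X ^ j) = ζ ^ j
      rw [map_pow, Polynomial.aeval_X]
    rw [Finset.prod_congr rfl e1, hmapC]
    have hr : ∀ j ∈ Finset.range f, constantCoeff (rescale (ζ ^ j) (toC P)) ≠ 0 := by
      intro j _
      rw [← coeff_zero_eq_constantCoeff_apply, coeff_rescale, pow_zero, one_mul,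
        coeff_zero_eq_constantCoeff_apply, hcP]
      exact one_ne_zero
    have e2 : PowerSeries.map (Int.castRingHom ℂ) (sub f Q) = sub f (toC Q) :=
      Pool.Agent.Y701.PE.map_sub' _ _ _
    rw [e2]
    apply eq_of_pw
    · rw [map_prod]
      refine Finset.prod_eq_one fun j _ => ?_
      rw [← coeff_zero_eq_constantCoeff_apply, coeff_rescale, pow_zero, one_mul,
        coeff_zero_eq_constantCoeff_apply, hcP]
    · rw [Pool.Agent.Y701.PE.cc_sub, hcQ]
    · intro n hn
      rw [pw_prod _ _ hr, map_sum, Pool.Agent.Y701.PE.pw_sub hf hcQ]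
      have e3 : ∀ j ∈ Finset.range f, coeff n (pw (rescale (ζ ^ j) (toC P))) =
          (ζ ^ n) ^ j * -(a n : ℂ) := by
        intro j _
        rw [coeff_pw_rescale _ (by rw [hcP]; exact one_ne_zero),
          Pool.Agent.Y701.PE.pw_of hP hn, ← pow_mul,
          ← pow_mul, mul_comm j n]
      rw [Finset.sum_congr rfl e3, ← Finset.sum_mul]
      by_cases hd : f ∣ n
      · obtain ⟨m, rfl⟩ := hd
        have hm : m ≠ 0 := by
          rintro rfl
          exact hn (mul_zero _)
        rw [if_pos (dvd_mul_right _ _), Nat.mul_div_cancel_left _ (Nat.pos_of_ne_zero hf),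
          Pool.Agent.Y701.PE.pw_of hQ hm, h m hm, pow_mul, hζ.pow_eq_one, one_pow]
        simp
      · rw [if_neg hd]
        have h2 : ζ ^ n ≠ 1 := fun h3 => hd ((hζ.pow_eq_one_iff_dvd n).1 h3)
        have h3 := mul_neg_geom_sum (ζ ^ n) f
        rw [← pow_mul, mul_comm n f, pow_mul, hζ.pow_eq_one, one_pow, sub_self] at h3
        rw [(mul_eq_zero.1 h3).resolve_left (sub_ne_zero.2 h2.symm), zero_mul]
  have h2 : ∀ n, (coeff n H).eval₂ (Int.castRingHom R) ξ = 0 := by
    intro n
    have e1 := congrArg (coeff n) h1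
    rw [coeff_map, map_zero] at e1
    have e2 : Polynomial.aeval ζ (coeff n H) = 0 := e1
    have e3 : Polynomial.cyclotomic f ℤ ∣ coeff n H := by
      rw [Polynomial.cyclotomic_eq_minpoly hζ (Nat.pos_of_ne_zero hf)]
      exact minpoly.isIntegrallyClosed_dvd (hζ.isIntegral (Nat.pos_of_ne_zero hf)) e2
    obtain ⟨g, hg⟩ := e3
    rw [hg, Polynomial.eval₂_mul]
    have e4 : (Polynomial.cyclotomic f ℤ).eval₂ (Int.castRingHom R) ξ = 0 := by
      rw [Polynomial.eval₂_eq_eval_map, Polynomial.map_cyclotomic_int]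
      exact hξ.isRoot_cyclotomic (Nat.pos_of_ne_zero hf)
    rw [e4, zero_mul]
  have h3 : PowerSeries.map (Polynomial.eval₂RingHom (Int.castRingHom R) ξ) H = 0 := by
    ext n
    rw [coeff_map, map_zero]
    exact h2 n
  rw [hH, map_sub, map_prod, sub_eq_zero, hmapC] at h3
  rw [← h3]
  refine Finset.prod_congr rfl fun j _ => ?_
  rw [hmapr, hmapC]
  congr 2
  show (Polynomial.X ^ j : Polynomial ℤ).eval₂ (Int.castRingHom R) ξ = ξ ^ j
  rw [Polynomial.eval₂_pow, Polynomial.eval₂_X]

theorem rescale_sub {R : Type*} [CommRing R] (u : R) {d : ℕ} (hd : d ≠ 0) (P : PowerSeries R) :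
    rescale u (sub d P) = sub d (rescale (u ^ d) P) := by
  ext n
  rw [coeff_rescale, Pool.Agent.Y701.PE.coeff_sub, Pool.Agent.Y701.PE.coeff_sub, coeff_rescale]
  split_ifs with h
  · obtain ⟨m, rfl⟩ := h
    rw [Nat.mul_div_cancel_left _ (Nat.pos_of_ne_zero hd), pow_mul]
  · rw [mul_zero]

theorem sub_prod {R : Type*} [CommRing R] {d : ℕ} (hd : d ≠ 0) {ι : Type*} (s : Finset ι)
    (P : ι → PowerSeries R) : sub d (∏ i ∈ s, P i) = ∏ i ∈ s, sub d (P i) := by
  rw [Pool.Agent.Y701.PE.sub_eq hd, map_prod]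
  exact Finset.prod_congr rfl fun i _ => by rw [Pool.Agent.Y701.PE.sub_eq hd]

end uni

section poly

open Polynomial

variable {F : Type} [Field F]

/-- polynomials invariant under the roots of unity -/
theorem norm_poly {r : ℕ} (hr : r ≠ 0) {ζ : F} (hζ : IsPrimitiveRoot ζ r) (p : F[X]) :
    ∃ p' : F[X], expand F r p' = ∏ i ∈ Finset.range r, p.comp (C (ζ ^ i) * X) := by
  classical
  set N := ∏ i ∈ Finset.range r, p.comp (C (ζ ^ i) * X) with hN
  have hinv : N.comp (C ζ * X) = N := by
    rw [hN, Polynomial.prod_comp]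
    have e1 : ∀ i ∈ Finset.range r, (p.comp (C (ζ ^ i) * X)).comp (C ζ * X) =
        p.comp (C (ζ ^ (i + 1)) * X) := by
      intro i _
      rw [Polynomial.comp_assoc, Polynomial.mul_comp, Polynomial.C_comp, Polynomial.X_comp,
        ← mul_assoc, ← Polynomial.C_mul, pow_succ]
    rw [Finset.prod_congr rfl e1]
    obtain ⟨m, rfl⟩ := Nat.exists_eq_succ_of_ne_zero hr
    rw [Finset.prod_range_succ, Finset.prod_range_succ' (fun i => p.comp (C (ζ ^ i) * X))]
    congr 1
    rw [hζ.pow_eq_one, pow_zero]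
  have hcoef : ∀ n, ¬ r ∣ n → N.coeff n = 0 := by
    intro n hn
    have h1 := congrArg (fun q => Polynomial.coeff q n) hinv
    simp only [Polynomial.comp_C_mul_X_coeff] at h1
    have h2 : ζ ^ n ≠ 1 := fun h => hn ((hζ.pow_eq_one_iff_dvd n).1 h)
    have h3 : N.coeff n * (ζ ^ n - 1) = 0 := by
      linear_combination h1
    exact (mul_eq_zero.1 h3).resolve_right (sub_ne_zero.2 h2)
  refine ⟨Polynomial.contract r N, ?_⟩
  ext n
  rw [Polynomial.coeff_expand (Nat.pos_of_ne_zero hr)]
  split_ifs with h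
  · rw [Polynomial.coeff_contract hr, Nat.div_mul_cancel h]
  · exact (hcoef n h).symm

theorem comp_ne {u : F} (hu : u ≠ 0) {p : F[X]} (hp : p ≠ 0) : p.comp (C u * X) ≠ 0 := by
  intro h
  apply hp
  have h4 := congrArg (fun p : Polynomial F => p.comp (Polynomial.C u⁻¹ * Polynomial.X)) h
  simp only [Polynomial.comp_assoc, Polynomial.zero_comp] at h4
  have h5 : (Polynomial.C u * Polynomial.X : Polynomial F).comp
      (Polynomial.C u⁻¹ * Polynomial.X) = Polynomial.X := by
    rw [Polynomial.mul_comp, Polynomial.C_comp, Polynomial.X_comp, ← mul_assoc,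
      ← Polynomial.C_mul, mul_inv_cancel₀ hu, Polynomial.C_1, one_mul]
  rw [h5, Polynomial.comp_X] at h4
  exact h4

/-- the multiplicities of the norm -/
theorem norm_mult {r : ℕ} (hr : (r : F) ≠ 0) {ζ : F} (hζ : IsPrimitiveRoot ζ r) {p p' : F[X]}
    (hp : p ≠ 0) (h : expand F r p' = ∏ i ∈ Finset.range r, p.comp (C (ζ ^ i) * X)) {x : F}
    (hx : x ≠ 0) :
    p' ≠ 0 ∧ p'.rootMultiplicity (x ^ r) =
      ∑ i ∈ Finset.range r, p.rootMultiplicity (ζ ^ i * x) := by
  have hr0 : r ≠ 0 := by
    rintro rfl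
    exact hr Nat.cast_zero
  have hζ0 : ζ ≠ 0 := hζ.ne_zero hr0
  have h1 : ∀ i ∈ Finset.range r, p.comp (C (ζ ^ i) * X) ≠ 0 := fun i _ =>
    comp_ne (pow_ne_zero _ hζ0) hp
  have h2 : p' ≠ 0 := by
    rintro rfl
    rw [map_zero] at h
    exact Finset.prod_ne_zero_iff.2 h1 h.symm
  refine ⟨h2, ?_⟩
  rw [← rm_expand hr hx h2, h, rm_prod _ _ _ h1]
  exact Finset.sum_congr rfl fun i _ => rm_comp (pow_ne_zero i hζ0) _ _

end poly

section main

open PowerSeries

variable {k K k' K' : Type} [Field k] [Finite k] [Field K] [Algebra k K] [FF.IsFF k K]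
  [Field k'] [Finite k'] [Field K'] [Algebra k' K'] [Algebra k k'] [Algebra k K'] [Algebra K K']
  [IsScalarTower k K K'] [IsScalarTower k k' K'] [FF.IsFF k K'] [FF.IsFF k' K']
  [FiniteDimensional K K']

/-- the product over a constant extension -/
theorem base_change (hconst : ∀ a : K, IsAlgebraic k a → a ∈ (algebraMap k K).range)
    (hfr : finrank K K' = finrank k k')
    {P : Place k K → PowerSeries ℤ} {P' : Place k' K' → PowerSeries ℤ}
    {a : Place k K → ℕ → ℤ} {a' : Place k' K' → ℕ → ℤ} (hP : ∀ v, IsExp (a v) (P v))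
    (hP' : ∀ w, IsExp (a' w) (P' w))
    (haa : ∀ (v : Place k K) (w : Place k K') (n f : ℕ), Over w v n → w.deg = v.deg * f →
      ∀ m, m ≠ 0 → a' (upPlace w) m = a v (f * m))
    {Λ Λ' : PowerSeries ℤ}
    (hK : Λ * eulerProd (fun v : Place k K => v.deg) (fun v => sub v.deg (P v)) = 1)
    (hL : Λ' * eulerProd (fun w : Place k' K' => w.deg) (fun w => sub w.deg (P' w)) = 1)
    {R : Type} [Field R] {ζ : R} (hζ : IsPrimitiveRoot ζ (finrank k k'))
    (hr : finrank k k' ≠ 0) :
    expand (finrank k k') hr (PowerSeries.map (Int.castRingHom R) Λ') =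
      ∏ i ∈ Finset.range (finrank k k'),
        rescale (ζ ^ i) (PowerSeries.map (Int.castRingHom R) Λ) := by
  classical
  obtain ⟨μ, θ, hμ, hm, hroot, hdeg⟩ := exists_gen (k := k) (k' := k') (K' := K')
  set r := finrank k k' with hrdef
  have hr0 : 0 < r := Nat.pos_of_ne_zero hr
  choose S hS1 hS2 hS3 using fun v : Place k K => const_fiber (K' := K') hμ hm hconst hroot
    (hfr.trans hdeg.symm) v
  rw [hdeg] at hS2 hS3
  have hdK : ∀ v : Place k K, v.deg ≠ 0 := fun w => (Pool.Agent.H525R3.FFp.deg_pos w).ne'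
  have hdL : ∀ v : Place k K', v.deg ≠ 0 := fun w => (Pool.Agent.H525R3.FFp.deg_pos w).ne'
  have hfin : ∀ n, {v : Place k K | v.deg ≤ n}.Finite := fun n => places_fin n
  have hfin' : ∀ n, {w : Place k K' | w.deg ≤ n}.Finite := fun n => places_fin n
  set Q : Place k K' → PowerSeries ℤ := fun w => sub w.deg (P' (upPlace w)) with hQ
  have hQd : ∀ w : Place k K', (X : PowerSeries ℤ) ^ w.deg ∣ Q w - 1 := fun w =>
    Pool.Agent.Y701.PE.sub_mod (hdL w) (hP' (upPlace w)).1
  have hPd : ∀ v : Place k K, (X : PowerSeries ℤ) ^ v.deg ∣ sub v.deg (P v) - 1 := fun v =>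
    Pool.Agent.Y701.PE.sub_mod (hdK v) (hP v).1
  -- the product over the places of `K'`
  have hE : eulerProd (fun w : Place k K' => w.deg) Q =
      eulerProd (fun v : Place k K => v.deg) (fun v => ∏ w ∈ S v, Q w) := by
    symm
    refine eulerProd_fiber hfin hfin' hQd S ?_ ?_ ?_
    · intro w
      obtain ⟨e, v, h⟩ := exists_below (K := K) w
      exact ⟨v, hS1 v w e h⟩
    · intro v v' w hw hw'
      exact over_unique_base (hS2 v w hw).1 (hS2 v' w hw').1
    · intro v w hw
      rw [(hS2 v w hw).2]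
      exact Nat.le_of_dvd (Nat.lcm_pos (Nat.pos_of_ne_zero (hdK v)) hr0) (Nat.dvd_lcm_left _ _)
  -- the local identity
  have hloc : ∀ v : Place k K, ∏ w ∈ S v, PowerSeries.map (Int.castRingHom R) (Q w) =
      ∏ i ∈ Finset.range r, rescale (ζ ^ i)
        (PowerSeries.map (Int.castRingHom R) (sub v.deg (P v))) := by
    intro v
    set d := v.deg with hd
    have hd0 : 0 < d := Nat.pos_of_ne_zero (hdK v)
    obtain ⟨f, hf⟩ := Nat.dvd_lcm_left d r
    have hlpos : 0 < Nat.lcm d r := Nat.lcm_pos hd0 hr0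
    have hf0 : 0 < f := by
      rcases Nat.eq_zero_or_pos f with h0 | h0
      · rw [h0, mul_zero] at hf; omega
      · exact h0
    have hcard : r = (S v).card * f := by
      have h1 := hS3 v
      rw [← hd, hf] at h1
      have h2 : d * ((S v).card * f) = d * r := by rw [← h1]; ring
      exact (Nat.eq_of_mul_eq_mul_left hd0 h2).symm
    have hgcd : Nat.gcd r d * f = r := by
      have h1 := Nat.gcd_mul_lcm d r
      rw [hf, Nat.gcd_comm] at h1
      have h2 : d * (Nat.gcd r d * f) = d * r := by rw [← h1]; ring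
      exact Nat.eq_of_mul_eq_mul_left hd0 h2
    have hgpos : 0 < Nat.gcd r d := Nat.gcd_pos_of_pos_left _ hr0
    have hprim : IsPrimitiveRoot (ζ ^ d) f := by
      have h1 : orderOf (ζ ^ d) = f := by
        rw [orderOf_pow' ζ hd0.ne', ← hζ.eq_orderOf]
        exact Nat.div_eq_of_eq_mul_right hgpos hgcd.symm
      rw [← h1]
      exact IsPrimitiveRoot.orderOf _
    have h1 : ∀ w ∈ S v, PowerSeries.map (Int.castRingHom R) (Q w) =
        ∏ j ∈ Finset.range f, sub d (rescale ((ζ ^ d) ^ j)
          (PowerSeries.map (Int.castRingHom R) (P v))) := by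
      intro w hw
      obtain ⟨h2, h3⟩ := hS2 v w hw
      have h4 : w.deg = d * f := by rw [h3, ← hd, hf]
      show PowerSeries.map (Int.castRingHom R) (sub w.deg (P' (upPlace w))) = _
      rw [h4, ← Pool.Agent.Y701.PE.sub_sub _ _ hd0.ne' hf0.ne', Pool.Agent.Y701.PE.map_sub',
        prod_roots hf0.ne' hprim (hP v) (hP' (upPlace w)) (fun n hn => haa v w 1 f h2 h4 n hn),
        sub_prod hd0.ne']
    rw [Finset.prod_congr rfl h1, Finset.prod_const]
    have h2 : ∀ i, rescale (ζ ^ i) (PowerSeries.map (Int.castRingHom R) (sub d (P v))) =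
        sub d (rescale ((ζ ^ d) ^ i) (PowerSeries.map (Int.castRingHom R) (P v))) := by
      intro i
      rw [Pool.Agent.Y701.PE.map_sub', rescale_sub _ hd0.ne', pow_right_comm]
    simp_rw [h2]
    conv_rhs => rw [hcard]
    rw [prod_range_periodic (fun i => sub d (rescale ((ζ ^ d) ^ i)
      (PowerSeries.map (Int.castRingHom R) (P v)))) f]
    intro i
    simp only [pow_add, hprim.pow_eq_one, mul_one]
  -- the product over the places of `K`
  have hEK : PowerSeries.map (Int.castRingHom R) (eulerProd (fun w : Place k K' => w.deg) Q) =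
      ∏ i ∈ Finset.range r, rescale (ζ ^ i) (PowerSeries.map (Int.castRingHom R)
        (eulerProd (fun v : Place k K => v.deg) (fun v => sub v.deg (P v)))) := by
    rw [hE, map_eulerProd hfin]
    have hR : ∀ i, rescale (ζ ^ i) (PowerSeries.map (Int.castRingHom R)
        (eulerProd (fun v : Place k K => v.deg) (fun v => sub v.deg (P v)))) =
        eulerProd (fun v : Place k K => v.deg) (fun v => rescale (ζ ^ i)
          (PowerSeries.map (Int.castRingHom R) (sub v.deg (P v)))) := by
      intro i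
      rw [map_eulerProd hfin, rescale_eulerProd hfin]
    simp_rw [hR]
    rw [← eulerProd_prod hfin]
    · congr 1
      funext v
      rw [map_prod, hloc v]
    · intro i v
      have h1 := map_dvd (rescale (ζ ^ i)) (map_dvd (PowerSeries.map (Int.castRingHom R)) (hPd v))
      rw [map_sub, map_sub, map_one, map_one, map_pow, PowerSeries.map_X, rescale_Xpow] at h1
      exact (Dvd.intro_left _ rfl).trans h1
  have hLk : expand r hr Λ' * eulerProd (fun w : Place k K' => w.deg) Q = 1 := by
    rw [hQ, Pool.Agent.Y701.PE.euler_down hr fun w => (hP' w).1, ← map_mul, hL, map_one]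
  have i1 : expand r hr (PowerSeries.map (Int.castRingHom R) Λ') *
      PowerSeries.map (Int.castRingHom R) (eulerProd (fun w : Place k K' => w.deg) Q) = 1 := by
    have h := congrArg (PowerSeries.map (Int.castRingHom R)) hLk
    rw [map_mul, map_one] at h
    rw [← h]
    congr 1
    rw [← Pool.Agent.Y701.PE.sub_eq hr, ← Pool.Agent.Y701.PE.sub_eq hr,
      Pool.Agent.Y701.PE.map_sub']
  have i2 : (∏ i ∈ Finset.range r, rescale (ζ ^ i) (PowerSeries.map (Int.castRingHom R) Λ)) *
      (∏ i ∈ Finset.range r, rescale (ζ ^ i) (PowerSeries.map (Int.castRingHom R)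
        (eulerProd (fun v : Place k K => v.deg) (fun v => sub v.deg (P v))))) = 1 := by
    rw [← Finset.prod_mul_distrib]
    apply Finset.prod_eq_one
    intro i _
    rw [← map_mul, ← map_mul, hK, map_one, map_one]
  rw [← hEK] at i2
  exact (left_inv_eq_right_inv i1 (by rw [mul_comm]; exact i2))

end main

end Pool.Agent.Y701.GV
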