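import Pool.Agent.Y701.GV.Ech
import Pool.Agent.Y701.PE.Eq

/-!
Projective varieties over function fields: the fibres of the closure, and the product of their zeta
functions over the places.
-/

set_option autoImplicit false
set_option linter.all false
set_option maxHeartbeats 4000000

open FF Module Pool.Agent.W343.BSD
open scoped LinearAlgebra.Projectivization

namespace Pool.Agent.Y701.GV

open Pool.Agent.Y701.PE (IsExp sub)

section defs

variable {k L : Type} [Field k] [Field L] [Algebra k L] {n : ℕ}

/-- The points over `E` of the fibre at the place `w` of the closure of the variety defined by the forms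
in `F`, where `E` is an extension of the residue field by `j`: the common zeros of the reductions of
all polynomials with coefficients regular at `w` in the ideal generated by `F`. -/
def Fibre (w : FF.Place k L) (F : Set (MvPolynomial (Fin (n + 1)) L)) (E : Type) [Field E]
    (j : S.Res w →+* E) : Set (ℙ E (Fin (n + 1) → E)) :=
  {y | ∀ g ∈ Ideal.span F, (∀ m, w.Reg (g.coeff m)) → (reduction w g).eval₂ j y.rep = 0}

/-- `a m` is the difference of `c(Q)` and the number of points with coordinates in `E` of the fibre at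
the place `w`, for each extension `E` of degree `m` of the residue field, where `Q` is the number of
elements of `E`. -/
def IsTrace (c : Polynomial ℤ) (w : FF.Place k L) (F : Set (MvPolynomial (Fin (n + 1)) L))
    (a : ℕ → ℤ) : Prop :=
  ∀ (m : ℕ) (E : Type) [Field E] [Finite E] (j : S.Res w →+* E), 0 < m →
    Nat.card E = Nat.card (S.Res w) ^ m →
    a m = c.eval (Nat.card E : ℤ) - Nat.card (Fibre w F E j)

/-- `P = exp (-∑ a_m T ^ m / m)`, where `a_m` is as in the definition of `IsTrace`. -/
def IsNumerator (c : Polynomial ℤ) (w : FF.Place k L) (F : Set (MvPolynomial (Fin (n + 1)) L))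
    (P : PowerSeries ℤ) : Prop :=
  ∃ a : ℕ → ℤ, IsTrace c w F a ∧ IsExp a P

/-- `Λ = ∏ P_w(T ^ (deg w))⁻¹`, the product over the places `w` of `L` over `k`. -/
def IsLFunction (k : Type) {L : Type} [Field k] [Field L] [Algebra k L] {n : ℕ} (c : Polynomial ℤ)
    (F : Set (MvPolynomial (Fin (n + 1)) L)) (Λ : PowerSeries ℤ) : Prop :=
  ∃ P : FF.Place k L → PowerSeries ℤ, (∀ w, IsNumerator c w F (P w)) ∧
    Λ * eulerProd (fun w : FF.Place k L => S.deg w) (fun w => sub (S.deg w) (P w)) = 1

end defs

section ov

variable {k K k' L : Type} [Field k] [Finite k] [Field K] [Algebra k K] [FF.IsFF k K]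
  [Field k'] [Finite k'] [Field L] [Algebra k' L] [Algebra k k'] [Algebra k L] [Algebra K L]
  [IsScalarTower k K L] [IsScalarTower k k' L] [FF.IsFF k L] [FF.IsFF k' L] {n : ℕ}

/-- the fibre over a place of an extension -/
theorem fibre_over {F : Set (MvPolynomial (Fin (n + 1)) K)} {v : Place k K} {w : Place k L} {e : ℕ}
    (h : Over w v e) (E : Type) [Field E] (j : S.Res (upPlace (k' := k') w) →+* E) :
    Fibre (upPlace (k' := k') w) (MvPolynomial.map (algebraMap K L) '' F) E j =
      Fibre v F E (j.comp ((h.resMap : v.RF →ₐ[k] w.RF).toRingHom :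
        S.Res v →+* S.Res (upPlace (k' := k') w))) := by
  classical
  set w' : Place k' L := upPlace (k' := k') w with hw'
  set r : S.Res v →+* S.Res w' := (h.resMap : v.RF →ₐ[k] w.RF).toRingHom with hr
  have hreg : ∀ f : K, w'.Reg (algebraMap K L f) ↔ v.Reg f := fun f => h.reg
  have hred : ∀ f : K, v.Reg f → S.red w' (algebraMap K L f) = r (S.red v f) := fun f hf =>
    (h.resMap_red hf).symm
  have hmap : ∀ g : MvPolynomial (Fin (n + 1)) K, (∀ m, v.Reg (g.coeff m)) →
      reduction w' (MvPolynomial.map (algebraMap K L) g) =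
        MvPolynomial.map r (reduction v g) := by
    intro g hg
    ext m
    rw [coeff_reduction, MvPolynomial.coeff_map, MvPolynomial.coeff_map, coeff_reduction,
      hred _ (hg m)]
  have hmapr : ∀ g : MvPolynomial (Fin (n + 1)) K, (∀ m, v.Reg (g.coeff m)) →
      ∀ m, w'.Reg ((MvPolynomial.map (algebraMap K L) g).coeff m) := by
    intro g hg m
    rw [MvPolynomial.coeff_map]
    exact (hreg _).2 (hg m)
  ext y
  constructor
  · intro hy g hg hgr
    have h1 := hy (MvPolynomial.map (algebraMap K L) g) (by
      have h2 := Ideal.mem_map_of_mem (MvPolynomial.map (algebraMap K L)) hg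
      rwa [Ideal.map_span] at h2) (hmapr g hgr)
    rw [hmap g hgr, MvPolynomial.eval₂_map] at h1
    exact h1
  · intro hy g hg hgr
    obtain ⟨N, l, f, hf, hgf⟩ := mem_span_map F hg
    obtain ⟨ι, iι, p, m, hJ, hmr, h1, h0, hs⟩ :=
      echelon v ((Ideal.span F).restrictScalars K) f hf
    have e1 : g = ∑ a, g.coeff (p a) • MvPolynomial.map (algebraMap K L) (m a) := by
      have e2 : ∀ a, g.coeff (p a) = ∑ i, l i * algebraMap K L ((f i).coeff (p a)) := by
        intro a
        conv_lhs => rw [hgf]
        rw [MvPolynomial.coeff_sum]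
        refine Finset.sum_congr rfl fun i _ => ?_
        rw [MvPolynomial.coeff_smul, MvPolynomial.coeff_map, smul_eq_mul]
      conv_lhs => rw [hgf]
      simp only [e2, Finset.sum_smul]
      rw [Finset.sum_comm]
      refine Finset.sum_congr rfl fun i _ => ?_
      have e3 : MvPolynomial.map (algebraMap K L) (f i) =
          ∑ a, algebraMap K L ((f i).coeff (p a)) •
            MvPolynomial.map (algebraMap K L) (m a) := by
        conv_lhs => rw [hs i]
        rw [map_sum]
        refine Finset.sum_congr rfl fun a _ => ?_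
        rw [MvPolynomial.smul_eq_C_mul, map_mul, MvPolynomial.map_C, MvPolynomial.smul_eq_C_mul]
      rw [e3, Finset.smul_sum]
      exact Finset.sum_congr rfl fun a _ => by rw [smul_smul]
    rw [e1, reduction_sum, MvPolynomial.eval₂_sum]
    · refine Finset.sum_eq_zero fun a _ => ?_
      rw [reduction_smul (hgr _) (hmapr _ (hmr a)), hmap _ (hmr a), MvPolynomial.eval₂_mul,
        MvPolynomial.eval₂_map]
      have h2 := hy (m a) (hJ a) (hmr a)
      rw [h2, mul_zero]
    · intro a _ b
      rw [MvPolynomial.coeff_smul, smul_eq_mul]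
      exact w'.reg_mul (hgr _) (hmapr _ (hmr a) b)

/-- the traces over a place of an extension -/
theorem trace_over (c : Polynomial ℤ) {F : Set (MvPolynomial (Fin (n + 1)) K)}
    {v : Place k K} {w : Place k L} {e f : ℕ}
    (h : Over w v e) (hd : w.deg = v.deg * f) {a a' : ℕ → ℤ} (ha : IsTrace c v F a)
    (ha' : IsTrace c (upPlace (k' := k') w) (MvPolynomial.map (algebraMap K L) '' F) a')
    {m : ℕ} (hm : m ≠ 0) : a' m = a (f * m) := by
  classical
  set w' : Place k' L := upPlace (k' := k') w with hw'
  have hfin : Finite (S.Res w') := by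
    have h1 : Finite w.RF := Module.finite_of_finite k
    exact h1
  obtain ⟨E, iE, fE, j, hcard⟩ := Pool.Agent.Y701.PE.exists_extension (S.Res w') hm
  have h1 := ha' m E j (Nat.pos_of_ne_zero hm) hcard
  have hres : Nat.card (S.Res w') = Nat.card (S.Res v) ^ f := by
    have h2 : Nat.card (S.Res w') = Nat.card (S.Res w) := rfl
    rw [h2, Pool.Agent.Y701.PE.card_res, Pool.Agent.Y701.PE.card_res, hd, pow_mul]
  have hf0 : 0 < f := by
    rcases Nat.eq_zero_or_pos f with h0 | h0
    · rw [h0, mul_zero] at hd
      exact absurd hd (Pool.Agent.H525R3.FFp.deg_pos w).ne'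
    · exact h0
  have h2 := ha (f * m) E (j.comp ((h.resMap : v.RF →ₐ[k] w.RF).toRingHom :
      S.Res v →+* S.Res w')) (Nat.mul_pos hf0 (Nat.pos_of_ne_zero hm)) (by
    rw [hcard, hres, pow_mul])
  rw [h1, h2, ← fibre_over (k' := k') h E j]

end ov

section unique

variable {k K : Type} [Field k] [Finite k] [Field K] [Algebra k K] [FF.IsFF k K] {n : ℕ}

theorem numerator_unique (c : Polynomial ℤ) (w : Place k K)
    {F : Set (MvPolynomial (Fin (n + 1)) K)}
    {P P' : PowerSeries ℤ} (hP : IsNumerator c w F P) (hP' : IsNumerator c w F P') :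
    P = P' := by
  obtain ⟨a, ha, h⟩ := hP
  obtain ⟨a', ha', h'⟩ := hP'
  refine Pool.Agent.Y701.PE.exp_unique (fun m hm => ?_) h h'
  have hfin : Finite (S.Res w) := by
    have h1 : Finite w.RF := Module.finite_of_finite k
    exact h1
  obtain ⟨E, iE, fE, j, hj⟩ := Pool.Agent.Y701.PE.exists_extension (S.Res w) hm
  rw [ha m E j (Nat.pos_of_ne_zero hm) hj, ha' m E j (Nat.pos_of_ne_zero hm) hj]

theorem lfun_unique (c : Polynomial ℤ) {F : Set (MvPolynomial (Fin (n + 1)) K)}
    {Λ Λ' : PowerSeries ℤ}
    (h : IsLFunction k c F Λ) (h' : IsLFunction k c F Λ') : Λ = Λ' := by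
  obtain ⟨P, hP, e⟩ := h
  obtain ⟨P', hP', e'⟩ := h'
  obtain rfl : P = P' := funext fun w => numerator_unique c w (hP w) (hP' w)
  exact left_inv_eq_right_inv e (by rw [mul_comm]; exact e')

theorem cc_lfun {c : Polynomial ℤ} {F : Set (MvPolynomial (Fin (n + 1)) K)}
    {Λ : PowerSeries ℤ} (hΛ : IsLFunction k c F Λ) : PowerSeries.constantCoeff Λ = 1 := by
  obtain ⟨P, hP, e⟩ := hΛ
  have h1 := congrArg PowerSeries.constantCoeff e
  rw [map_mul, map_one] at h1
  have h2 : PowerSeries.constantCoeff (eulerProd (fun w : Place k K => S.deg w)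
      (fun w => sub (S.deg w) (P w))) = 1 := by
    simp only [S.deg_eq]
    rw [← PowerSeries.coeff_zero_eq_constantCoeff_apply,
      coeff_eulerProd (fun n => places_fin n), PowerSeries.coeff_zero_eq_constantCoeff_apply,
      map_prod]
    refine Finset.prod_eq_one fun v _ => ?_
    obtain ⟨a, -, ha⟩ := hP v
    rw [Pool.Agent.Y701.PE.cc_sub, ha.1]
  rw [h2, mul_one] at h1
  exact h1

end unique

end Pool.Agent.Y701.GV
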