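import Pool.Agent.Y701.GV.Defs
import Pool.Agent.Y179.PE.FixInt

/-!
The product of the zeta functions of the fibres exists.
-/

set_option autoImplicit false
set_option linter.all false
set_option maxHeartbeats 4000000

open FF Module Pool.Agent.W343.BSD
open scoped LinearAlgebra.Projectivization

namespace Pool.Agent.Y701.GV

open Pool.Agent.Y701.QF
open Pool.Agent.Y701.PE (IsExp sub toC cc_toC pw_of toC_inj Pts)

section exp

open PowerSeries

/-- from the logarithmic derivative -/
theorem isExp_of {a : ℕ → ℤ} {P : PowerSeries ℤ} (h0 : constantCoeff P = 1)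
    (h : ∀ n, n ≠ 0 → coeff n (pw (toC P)) = -(a n : ℂ)) : IsExp a P := by
  refine ⟨h0, fun n => ?_⟩
  have hc := cc_toC h0
  have h1 : pw (toC P) * toC P = theta (toC P) := pw_spec (by rw [hc]; exact one_ne_zero)
  have h2 := congrArg (coeff n) h1
  rw [coeff_theta, coeff_map, mul_comm, coeff_mul,
    Finset.Nat.sum_antidiagonal_eq_sum_range_succ_mk, Finset.sum_range_succ, Nat.sub_self] at h2
  have h3 : coeff 0 (pw (toC P)) = 0 := by
    have h4 := congrArg (coeff 0) h1
    rw [coeff_theta, Nat.cast_zero, zero_mul, coeff_zero_eq_constantCoeff_apply, map_mul, hc,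
      mul_one] at h4
    rw [coeff_zero_eq_constantCoeff_apply]
    exact h4
  rw [h3, mul_zero, add_zero] at h2
  have h6 : (((n : ℤ) * coeff n P : ℤ) : ℂ) =
      ((-∑ i ∈ Finset.range n, coeff i P * a (n - i) : ℤ) : ℂ) := by
    push_cast
    rw [← Finset.sum_neg_distrib]
    have h7 : ((n : ℂ)) * (Int.castRingHom ℂ) (coeff n P) = (n : ℂ) * ((coeff n P : ℤ) : ℂ) := rfl
    rw [← h7, ← h2]
    refine Finset.sum_congr rfl fun i hi => ?_
    rw [Finset.mem_range] at hi
    simp only [coeff_map]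
    rw [h (n - i) (by omega)]
    simp
  exact_mod_cast h6

theorem exp_mul {a b : ℕ → ℤ} {P Q : PowerSeries ℤ} (hP : IsExp a P) (hQ : IsExp b Q) :
    IsExp (fun m => a m + b m) (P * Q) := by
  have c1 := cc_toC hP.1
  have c2 := cc_toC hQ.1
  apply isExp_of (by rw [map_mul, hP.1, hQ.1, one_mul])
  intro n hn
  rw [map_mul, pw_mul (by rw [c1]; exact one_ne_zero) (by rw [c2]; exact one_ne_zero), map_add,
    pw_of hP hn, pw_of hQ hn]
  push_cast
  ring

theorem exp_inv {a : ℕ → ℤ} {P : PowerSeries ℤ} (hP : IsExp a P) :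
    ∃ Q, IsExp (fun m => -a m) Q := by
  have h1 : P * PowerSeries.invOfUnit P 1 = 1 := PowerSeries.mul_invOfUnit P 1 (by
    rw [hP.1]; rfl)
  have h2 : constantCoeff (PowerSeries.invOfUnit P 1) = 1 := by
    have h := congrArg constantCoeff h1
    rwa [map_mul, hP.1, one_mul, map_one] at h
  refine ⟨PowerSeries.invOfUnit P 1, isExp_of h2 ?_⟩
  intro n hn
  have c1 := cc_toC hP.1
  have c2 := cc_toC h2
  have h3 : pw (toC P) + pw (toC (PowerSeries.invOfUnit P 1)) = 0 := by
    rw [← pw_mul (by rw [c1]; exact one_ne_zero) (by rw [c2]; exact one_ne_zero), ← map_mul, h1,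
      map_one, pw_one]
  have h4 := congrArg (coeff n) h3
  rw [map_add, map_zero, pw_of hP hn] at h4
  push_cast
  linear_combination h4

theorem exp_zero : IsExp (fun _ => 0) 1 := by
  refine isExp_of (map_one _) fun n _ => ?_
  rw [map_one, pw_one]
  simp

theorem isExp_lin (u : ℤ) : IsExp (fun m => u ^ m) (1 - PowerSeries.C u * PowerSeries.X) := by
  refine isExp_of (Pool.Agent.Y701.PE.cc_linear u) fun n hn => ?_
  rw [Pool.Agent.Y701.PE.pw_linear u hn]
  push_cast
  rfl

theorem isExp_congr {a b : ℕ → ℤ} (h : ∀ m, a m = b m) {P : PowerSeries ℤ} (hP : IsExp a P) :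
    IsExp b P := by
  obtain rfl : a = b := funext h
  exact hP

/-- the exponential of the values of a polynomial -/
theorem exp_poly (q : ℤ) (c : Polynomial ℤ) : ∃ Q, IsExp (fun m => c.eval (q ^ m)) Q := by
  induction c using Polynomial.induction_on' with
  | add p r hp hr =>
    obtain ⟨P, hP⟩ := hp
    obtain ⟨R, hR⟩ := hr
    exact ⟨P * R, isExp_congr (fun m => by rw [Polynomial.eval_add]) (exp_mul hP hR)⟩
  | monomial i a =>
    have hpos : ∀ j : ℕ, ∃ Q, IsExp (fun m => (j : ℤ) * (q ^ m) ^ i) Q := by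
      intro j
      induction j with
      | zero => exact ⟨1, isExp_congr (fun m => by simp) exp_zero⟩
      | succ j ih =>
        obtain ⟨Q, hQ⟩ := ih
        refine ⟨_, isExp_congr (fun m => ?_) (exp_mul hQ (isExp_lin (q ^ i)))⟩
        push_cast
        rw [← pow_mul, ← pow_mul, mul_comm i m]
        ring
    rcases le_or_gt 0 a with ha | ha
    · obtain ⟨j, rfl⟩ := Int.eq_ofNat_of_zero_le ha
      obtain ⟨Q, hQ⟩ := hpos j
      exact ⟨Q, isExp_congr (fun m => by rw [Polynomial.eval_monomial]) hQ⟩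
    · obtain ⟨j, hj⟩ := Int.eq_ofNat_of_zero_le (show 0 ≤ -a by omega)
      obtain ⟨Q, hQ⟩ := hpos j
      obtain ⟨Q', hQ'⟩ := exp_inv hQ
      refine ⟨Q', isExp_congr (fun m => ?_) hQ'⟩
      rw [Polynomial.eval_monomial]
      have : (j : ℤ) = -a := hj.symm
      rw [this]
      ring

end exp

section zeta

/-- the zeta function of a projective variety over a finite field -/
theorem exists_zeta {κ : Type} [Field κ] [Finite κ] {n : ℕ} (J : Set (MvPolynomial (Fin (n + 1)) κ))
    (hJ : ∀ f ∈ J, ∃ d, f.IsHomogeneous d) :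
    ∃ (N : ℕ → ℕ) (Z : PowerSeries ℤ), (∀ (m : ℕ) (E : Type) [Field E] [Finite E] (ι : κ →+* E),
      0 < m → Nat.card E = Nat.card κ ^ m → N m = Nat.card (Pts E ι J)) ∧
      IsExp (fun m => -(N m : ℤ)) Z := by
  classical
  have hN : ∀ m : ℕ, ∃ N : ℕ, 0 < m → ∀ (E : Type) [Field E] [Finite E] (ι : κ →+* E),
      Nat.card E = Nat.card κ ^ m → N = Nat.card (Pts E ι J) := by
    intro m
    rcases Nat.eq_zero_or_pos m with h0 | h0
    · exact ⟨0, fun h => absurd h (by omega)⟩
    · obtain ⟨E, iE, fE, ι, hE⟩ := Pool.Agent.Y701.PE.exists_extension κ h0.ne'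
      refine ⟨Nat.card (Pts E ι J), fun _ E' _ _ ι' hE' => ?_⟩
      obtain ⟨σ, hσ⟩ := Pool.Agent.Y179.PE.t_FIX κ n J hJ m E ι h0 hE
      rw [hσ m E ι h0 dvd_rfl hE, hσ m E' ι' h0 dvd_rfl hE']
  choose N hN using hN
  obtain ⟨P, hP0, hP⟩ := Pool.Agent.Y179.PE.t_INT N (by
    intro M hM
    obtain ⟨E, iE, fE, ι, hE⟩ := Pool.Agent.Y701.PE.exists_extension κ hM.ne'
    obtain ⟨σ, hσ⟩ := Pool.Agent.Y179.PE.t_FIX κ n J hJ M E ι hM hE
    refine ⟨Pts E ι J, inferInstance, σ, fun r hr hrM => ?_⟩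
    obtain ⟨E', iE', fE', ι', hE'⟩ := Pool.Agent.Y701.PE.exists_extension κ hr.ne'
    rw [hN r hr E' ι' hE', hσ r E' ι' hr hrM hE'])
  refine ⟨N, P, fun m E _ _ ι hm hE => hN m hm E ι hE, hP0, fun n => ?_⟩
  rw [hP n, ← Finset.sum_neg_distrib]
  exact Finset.sum_congr rfl fun i _ => by ring

end zeta

section main

variable {k K : Type} [Field k] [Finite k] [Field K] [Algebra k K] [FF.IsFF k K] {n : ℕ}

/-- homogeneous components of an ideal generated by forms -/
theorem component_mem {F : Set (MvPolynomial (Fin (n + 1)) K)}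
    (hF : ∀ f ∈ F, ∃ d, f.IsHomogeneous d) {g : MvPolynomial (Fin (n + 1)) K}
    (hg : g ∈ Ideal.span F) (d : ℕ) : MvPolynomial.homogeneousComponent d g ∈ Ideal.span F := by
  letI := MvPolynomial.gradedAlgebra (σ := Fin (n + 1)) (R := K)
  have h1 := Ideal.homogeneous_span (MvPolynomial.homogeneousSubmodule (Fin (n + 1)) K) F
    (fun f hf => by
      obtain ⟨d, hd⟩ := hF f hf
      exact ⟨d, hd⟩)
  have h2 := h1 d hg
  have h3 : ((DirectSum.decompose (MvPolynomial.homogeneousSubmodule (Fin (n + 1)) K) g d :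
      MvPolynomial.homogeneousSubmodule (Fin (n + 1)) K d) : MvPolynomial (Fin (n + 1)) K) =
      MvPolynomial.homogeneousComponent d g := MvPolynomial.decomposition.decompose'_apply g d
  rw [h3] at h2
  exact h2

/-- the forms defining the fibre -/
def fibreForms (w : Place k K) (F : Set (MvPolynomial (Fin (n + 1)) K)) :
    Set (MvPolynomial (Fin (n + 1)) (S.Res w)) :=
  {h | ∃ g ∈ Ideal.span F, (∀ m, w.Reg (g.coeff m)) ∧ (∃ d, g.IsHomogeneous d) ∧
    h = reduction w g}

theorem fibre_eq (w : Place k K) {F : Set (MvPolynomial (Fin (n + 1)) K)}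
    (hF : ∀ f ∈ F, ∃ d, f.IsHomogeneous d) (E : Type) [Field E] (j : S.Res w →+* E) :
    Fibre w F E j = Pts E j (fibreForms w F) := by
  classical
  ext y
  constructor
  · rintro hy h ⟨g, hg, hr, -, rfl⟩
    exact hy g hg hr
  · intro hy g hg hr
    have hr' : ∀ d m, w.Reg ((MvPolynomial.homogeneousComponent d g).coeff m) := by
      intro d m
      rw [MvPolynomial.coeff_homogeneousComponent]
      split_ifs
      · exact hr m
      · exact w.reg_zero
    have e1 : g = ∑ d ∈ Finset.range (g.totalDegree + 1), MvPolynomial.homogeneousComponent d g :=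
      (MvPolynomial.sum_homogeneousComponent g).symm
    rw [e1, reduction_sum _ _ fun d _ => hr' d, MvPolynomial.eval₂_sum]
    refine Finset.sum_eq_zero fun d _ => ?_
    exact hy _ ⟨_, component_mem hF hg d, hr' d,
      ⟨d, MvPolynomial.homogeneousComponent_isHomogeneous d g⟩, rfl⟩

theorem exists_numerator (c : Polynomial ℤ) (w : Place k K)
    {F : Set (MvPolynomial (Fin (n + 1)) K)} (hF : ∀ f ∈ F, ∃ d, f.IsHomogeneous d) :
    ∃ P, IsNumerator c w F P := by
  classical
  have hfin : Finite (S.Res w) := by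
    have h1 : Finite w.RF := Module.finite_of_finite k
    exact h1
  obtain ⟨N, Z, hN, hZ⟩ := exists_zeta (fibreForms w F) (by
    rintro h ⟨g, -, -, ⟨d, hd⟩, rfl⟩
    refine ⟨d, ?_⟩
    intro m hm
    rw [coeff_reduction] at hm
    apply hd
    intro h0
    apply hm
    rw [h0]
    show w.red 0 = 0
    exact w.red_zero)
  obtain ⟨Q, hQ⟩ := exp_poly (Nat.card (S.Res w) : ℤ) c
  refine ⟨Q * Z, _, ?_, exp_mul hQ hZ⟩
  intro m E _ _ j hm hE
  show c.eval ((Nat.card (S.Res w) : ℤ) ^ m) + -(N m : ℤ) = _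
  rw [fibre_eq w hF, hN m E j hm hE, hE]
  push_cast
  ring

/-- the product exists -/
theorem exists_lfun (c : Polynomial ℤ) {F : Set (MvPolynomial (Fin (n + 1)) K)}
    (hF : ∀ f ∈ F, ∃ d, f.IsHomogeneous d) : ∃ Λ, IsLFunction k c F Λ := by
  classical
  choose P hP using fun w : Place k K => exists_numerator c w hF
  set EP := eulerProd (fun w : FF.Place k K => S.deg w) (fun w => sub (S.deg w) (P w)) with hEP
  have hc : PowerSeries.constantCoeff EP = 1 := by
    rw [hEP]
    simp only [S.deg_eq]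
    rw [← PowerSeries.coeff_zero_eq_constantCoeff_apply,
      coeff_eulerProd (fun n => places_fin n), PowerSeries.coeff_zero_eq_constantCoeff_apply,
      map_prod]
    refine Finset.prod_eq_one fun v _ => ?_
    obtain ⟨a, -, ha⟩ := hP v
    rw [Pool.Agent.Y701.PE.cc_sub, ha.1]
  refine ⟨PowerSeries.invOfUnit EP 1, P, hP, ?_⟩
  rw [mul_comm]
  exact PowerSeries.mul_invOfUnit EP 1 (by rw [hc]; rfl)

end main

end Pool.Agent.Y701.GV
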