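import Pool.Agent.Y701.GV.Fixed
import Pool.Agent.Y701.GV.Ex
import Pool.Agent.Y701.CH.Real

/-!
The bound over the Galois extensions of prime power degree for a positive proportion of the primes.
-/

set_option autoImplicit false
set_option linter.all false
set_option maxHeartbeats 4000000

open FF Module

namespace Pool.Agent.Y701.GV

open Pool.Agent.W343.BSD Pool.Agent.Y701.QF
open Pool.Agent.Y701.PE (IsExp sub toC LiesOver)
open Pool.Agent.H123R3.ZT Pool.Agent.Y701.CB Pool.Agent.Y701.CH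
open Polynomial

/-- `P_v = A / C` with integral polynomials `A`, `C`, and `A` does not vanish modulo `l` at
`q_v ^ (-b)`. -/
def UnitAt {k L : Type} [Field k] [Field L] [Algebra k L] {n : ℕ} (l b : ℕ) (c : ℤ[X])
    (w : Place k L) (F : Set (MvPolynomial (Fin (n + 1)) L)) : Prop :=
  ∃ (P : PowerSeries ℤ) (A C : ℤ[X]), IsNumerator c w F P ∧
    P * (C : PowerSeries ℤ) = (A : PowerSeries ℤ) ∧ C.coeff 0 = 1 ∧
    (A.map (Int.castRingHom (ZMod l))).eval (((Nat.card (S.Res w) : ℕ) : ZMod l) ^ b)⁻¹ ≠ 0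

section fixed

variable {k K k' K' k'' L : Type} [Field k] [Finite k] [Field K] [Algebra k K] [FF.IsFF k K]
  [Field k'] [Finite k'] [Field K'] [Algebra k' K'] [Algebra k k'] [Algebra k K'] [Algebra K K']
  [IsScalarTower k K K'] [IsScalarTower k k' K'] [FF.IsFF k K'] [FF.IsFF k' K']
  [FiniteDimensional K K']
  [Field k''] [Finite k''] [Field L] [Algebra k'' L] [Algebra k' k''] [Algebra k' L]
  [Algebra K' L] [IsScalarTower k' K' L] [IsScalarTower k' k'' L] {n : ℕ}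

/-- the bound for a fixed prime -/
theorem bound_fixed (hKc : IsCurveField k K) (hKc' : IsCurveField k' K')
    (hLc : IsCurveField k'' L) (hfr : finrank K K' = finrank k k') {c : ℤ[X]}
    {F : Set (MvPolynomial (Fin (n + 1)) K)} (hF : ∀ f ∈ F, ∃ d, f.IsHomogeneous d)
    {Λ Λ'' : PowerSeries ℤ} (hK : IsLFunction k c F Λ)
    (hL : IsLFunction k'' c (MvPolynomial.map (algebraMap K' L) ''
      (MvPolynomial.map (algebraMap K K') '' F)) Λ'')
    {V G : ℤ[X]} {ρ b : ℕ} (hV : V.coeff 0 = 1)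
    (hP : Λ * (V : PowerSeries ℤ) =
      (((1 - C ((Nat.card k : ℤ) ^ b) * X) ^ ρ * G : ℤ[X]) : PowerSeries ℤ))
    (T : Finset (Place k K)) {P : Place k K → PowerSeries ℤ} {A Cc : Place k K → ℤ[X]}
    (hT : ∀ v ∈ T, IsNumerator c v F (P v) ∧
      P v * (Cc v : PowerSeries ℤ) = (A v : PowerSeries ℤ) ∧ (Cc v).coeff 0 = 1)
    {l : ℕ} [hl : Fact l.Prime] (hl2 : l ≠ 2) (hlk : (l : k) ≠ 0)
    (hsq : IsSquare ((Nat.card k : ℕ) : ZMod l))
    (hG : ∀ z : ZMod l, IsSquare z → (G.map (Int.castRingHom (ZMod l))).eval z ≠ 0)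
    (hA : ∀ v ∈ T, ∀ z : ZMod l, IsSquare z →
      ((A v).map (Int.castRingHom (ZMod l))).eval z ≠ 0)
    (hdvd : finrank k k' ∣ (l - 1) / 2) (hgal : IsGalois K' L)
    (hpow : ∃ s : ℕ, finrank K' L = l ^ s)
    (hram : ∀ (v' : Place k' K') (w : Place k'' L) (e : ℕ), LiesOver w v' e → e ≠ 1 →
      (∃ v ∈ T, ∃ e' : ℕ, LiesOver v' v e') ∨
        UnitAt l b c v' (MvPolynomial.map (algebraMap K K') '' F))
    (R W : ℤ[X]) (hW : W.coeff 0 = 1)
    (hR : Λ'' * (W : PowerSeries ℤ) = (R : PowerSeries ℤ)) :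
    finrank k' k'' * mu l (Nat.card k'') b R ≤
      finrank k' k'' * mu l (Nat.card k'') b W + finrank K' L * ρ := by
  classical
  have : Module.Finite k k' := Module.Finite.of_finite
  have hr0 : finrank k k' ≠ 0 := finrank_pos.ne'
  have hdvd' : finrank k k' ∣ l - 1 := by
    refine hdvd.trans ?_
    have h2 := hl.out.eq_two_or_odd
    have : (l - 1) / 2 * 2 = l - 1 := by omega
    exact ⟨2, this.symm⟩
  obtain ⟨ζ, hζ⟩ := Pool.Agent.Y701.R1.exists_prim hdvd'
  have hrl : ((finrank k k' : ℕ) : ZMod l) ≠ 0 := by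
    intro h
    rw [ZMod.natCast_eq_zero_iff] at h
    have h4 := Nat.le_of_dvd (by have := hl.out.two_le; omega) (h.trans hdvd')
    have := hl.out.two_le
    omega
  have hsqz : ∀ (i : ℕ) (j : ℕ), IsSquare (ζ ^ i * (((Nat.card k : ℕ) : ZMod l) ^ j)⁻¹) := by
    intro i j
    have h8 : IsSquare (ζ ^ i) := by
      apply Pool.Agent.Y701.R1.isSquare_of_pow hl2 hdvd
      rw [← pow_mul, mul_comm, pow_mul, hζ.pow_eq_one, one_pow]
    have h9 : IsSquare ((((Nat.card k : ℕ) : ZMod l) ^ j)⁻¹) := by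
      obtain ⟨c, hc⟩ := hsq
      exact ⟨(c ^ j)⁻¹, by rw [hc, mul_pow, mul_inv]⟩
    exact h8.mul h9
  have hF' : ∀ f ∈ MvPolynomial.map (algebraMap K K') '' F, ∃ d, f.IsHomogeneous d := by
    rintro _ ⟨f, hf, rfl⟩
    obtain ⟨d, hd⟩ := hF f hf
    exact ⟨d, hd.map _⟩
  obtain ⟨Λ', hK'⟩ := exists_lfun (k := k') c hF'
  obtain ⟨U', V', hV'0, hU', hmu⟩ := const_poly (k := k) (k' := k') (K := K) (K' := K')
    hKc.algClosed hfr hK hK' hlk hζ hrl hV hP fun i _ => hG _ (hsqz i b)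
  -- the ramified places
  obtain ⟨s, hs⟩ := hpow
  have i1 : FiniteDimensional K' L := Module.finite_of_finrank_pos (by
    rw [hs]; exact pow_pos hl.out.pos s)
  have i2 : FF.IsFF k' L := isFF_of_finite (K := K')
  have i3 : FF.IsFF k'' L := ⟨hLc.essFiniteType, hLc.trdeg_eq_one⟩
  have i4 := hgal
  have hD := fun v : Place k' K' => exists_galoisFiber (L := L) v
  choose SS e f D using hD
  have hramfin := Pool.Agent.Y701.R1.ram_finite (k := k') (K := K') (L := L)
  set B : Finset (Place k' K') := hramfin.toFinset with hB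
  have hmemB : ∀ v' : Place k' K', v' ∈ B ↔ ∃ (w : Place k' L) (e : ℕ), Over w v' e ∧ e ≠ 1 := by
    intro v'
    rw [hB, Set.Finite.mem_toFinset]
    rfl
  have hB1 : ∀ v' : Place k' K', v' ∉ B → e v' = 1 := by
    intro v' hv'
    by_contra hne
    apply hv'
    rw [hmemB]
    obtain ⟨w, hw⟩ := (D v').nonempty
    exact ⟨w, e v', (D v').isOver w hw, hne⟩
  choose P' hP' using fun v' : Place k' K' => exists_numerator (k := k') c v' hF'
  have hloc : ∀ v' : Place k' K', ∃ A' C' : (ZMod l)[X], v' ∈ B → C' ≠ 0 ∧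
      redL l (P' v') * (C' : PowerSeries (ZMod l)) = (A' : PowerSeries (ZMod l)) ∧
      A'.rootMultiplicity (((Nat.card (S.Res v') : ℕ) : ZMod l) ^ b)⁻¹ = 0 := by
    intro v'
    by_cases hv' : v' ∈ B
    · obtain ⟨w, e1, hov, he1⟩ := (hmemB v').1 hv'
      rcases hram v' (upPlace (k' := k'') w) e1 ⟨hov.1, hov.2⟩ he1 with ⟨v, hvT, e2, hv⟩ | h
      · have hv2 : Over (downPlace (k := k) v') v e2 := ⟨hv.1, hv.2⟩
        obtain ⟨t1, t2, t3⟩ := hT v hvT
        have hne : (Cc v).map (Int.castRingHom (ZMod l)) ≠ 0 :=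
          Pool.Agent.Y701.PE.map_ne_of_coeff t3
        obtain ⟨A', C', h1, h2, h3⟩ := const_loc (k := k) (k' := k') (K := K) (K' := K')
          hKc.algClosed hfr hlk hζ hrl b v' hv2 t1 (hP' v') hne (by
            have h := congrArg (redL l) t2
            rwa [map_mul, redL_poly, redL_poly] at h) (fun i => hA v hvT _ (hsqz i _))
        exact ⟨A', C', fun _ => ⟨h1, h2, h3⟩⟩
      · obtain ⟨Q, A', C', g1, g2, g3, g4⟩ := h
        have e1 : Q = P' v' := numerator_unique c v' g1 (hP' v')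
        refine ⟨A'.map (Int.castRingHom (ZMod l)), C'.map (Int.castRingHom (ZMod l)),
          fun _ => ⟨Pool.Agent.Y701.PE.map_ne_of_coeff g3, ?_, rm_eq_zero g4⟩⟩
        rw [← e1]
        have h := congrArg (redL l) g2
        rwa [map_mul, redL_poly, redL_poly] at h
    · exact ⟨0, 0, fun h => absurd h hv'⟩
  choose A' C' hAC' using hloc
  have hlk' : (l : k') ≠ 0 := by
    rw [← map_natCast (algebraMap k k')]
    exact (_root_.map_ne_zero _).2 hlk
  have hfin := var_formula (k := k') (K := K') (k' := k'') (L := L) hKc' hLc hlk' hgal ⟨s, hs⟩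
    (e := e) (fun v w n h => by
      have hov : Over (downPlace (k := k') w) v n := ⟨h.1, h.2⟩
      exact over_e_unique hov ((D v).isOver _ ((D v).mem _ n hov))) B hB1 c hK' hL hV'0 hU'
    (P := P') (A := A') (C := C') (fun v' hv' =>
      ⟨hP' v', (hAC' v' hv').2.1, (hAC' v' hv').1⟩) b R W hW hR
  have hzero : ∑ v ∈ B, (finrank K' L - finrank K' L / e v) * (l ^ padicValNat l (S.deg v) *
      (A' v).rootMultiplicity (((Nat.card (S.Res v) : ℕ) : ZMod l) ^ b)⁻¹) = 0 :=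
    Finset.sum_eq_zero fun v hv => by rw [(hAC' v hv).2.2, mul_zero, mul_zero]
  rw [hzero, hmu, add_zero] at hfin
  rw [← hfin, add_assoc]
  exact Nat.le_add_right _ _

end fixed

section main

variable {k K : Type} [Field k] [Finite k] [Field K] [Algebra k K] {n : ℕ}

/-- The primes for which the bound holds. -/
theorem dens (hKc : IsCurveField k K) {c : ℤ[X]} {F : Set (MvPolynomial (Fin (n + 1)) K)}
    {Λ : PowerSeries ℤ} (hK : IsLFunction k c F Λ)
    {V G : ℤ[X]} {ρ b : ℕ} (hV : V.coeff 0 = 1)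
    (hP : Λ * (V : PowerSeries ℤ) =
      (((1 - C ((Nat.card k : ℤ) ^ b) * X) ^ ρ * G : ℤ[X]) : PowerSeries ℤ))
    (hG : ∀ x : ℝ, 0 < x → aeval x G ≠ 0)
    (T : Finset (Place k K)) {P : Place k K → PowerSeries ℤ} {A Cc : Place k K → ℤ[X]}
    (hT : ∀ v ∈ T, IsNumerator c v F (P v) ∧
      P v * (Cc v : PowerSeries ℤ) = (A v : PowerSeries ℤ) ∧ (Cc v).coeff 0 = 1)
    (hA : ∀ v ∈ T, ∀ x : ℝ, 0 < x → aeval x (A v) ≠ 0) :
    PosDensity {ℓ : ℕ | ℓ.Prime ∧ ℓ % 4 = 3 ∧ (ℓ : k) ≠ 0 ∧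
      IsSquare ((Nat.card k : ℕ) : ZMod ℓ) ∧
      (∀ z : ZMod ℓ, IsSquare z → (G.map (Int.castRingHom (ZMod ℓ))).eval z ≠ 0) ∧
      ∀ v ∈ T, ∀ z : ZMod ℓ, IsSquare z →
        ((A v).map (Int.castRingHom (ZMod ℓ))).eval z ≠ 0} := by
  classical
  have i0 : FF.IsFF k K := ⟨hKc.essFiniteType, hKc.trdeg_eq_one⟩
  have hu : G.coeff 0 = 1 := by
    have h1 := congrArg PowerSeries.constantCoeff hP
    rw [map_mul, cc_lfun hK, one_mul, ← PowerSeries.coeff_zero_eq_constantCoeff_apply,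
      ← PowerSeries.coeff_zero_eq_constantCoeff_apply, Polynomial.coeff_coe,
      Polynomial.coeff_coe, hV, mul_coeff_zero] at h1
    have h2 : ((1 - C ((Nat.card k : ℤ) ^ b) * X : ℤ[X]) ^ ρ).coeff 0 = 1 := by
      rw [coeff_zero_eq_eval_zero, eval_pow]
      simp
    rw [h2, one_mul] at h1
    exact h1.symm
  have hA0 : ∀ v ∈ T, (A v).coeff 0 = 1 := by
    intro v hv
    obtain ⟨⟨a, -, ha⟩, h2, h3⟩ := hT v hv
    have h1 := congrArg PowerSeries.constantCoeff h2
    rw [map_mul, ha.1, one_mul, ← PowerSeries.coeff_zero_eq_constantCoeff_apply,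
      ← PowerSeries.coeff_zero_eq_constantCoeff_apply, Polynomial.coeff_coe,
      Polynomial.coeff_coe, h3] at h1
    exact h1.symm
  obtain ⟨H, hH⟩ : ∃ H : ℤ[X], H = G * ∏ v ∈ T, A v := ⟨_, rfl⟩
  have hH0 : H.coeff 0 ≠ 0 := by
    rw [hH, mul_coeff_zero, hu, one_mul, coeff_zero_eq_eval_zero, eval_prod]
    rw [Finset.prod_congr rfl (fun v hv => by
      rw [← coeff_zero_eq_eval_zero, hA0 v hv])]
    simp
  have hreal : ∀ x : ℝ, 0 < x → aeval x H ≠ 0 := by
    intro x hx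
    rw [hH, map_mul, map_prod]
    exact mul_ne_zero (hG x hx) (Finset.prod_ne_zero_iff.2 fun v hv => hA v hv x hx)
  have hfin : {ℓ : ℕ | ℓ.Prime ∧ (ℓ : k) = 0}.Finite := by
    apply (Set.finite_Iic (Nat.card k)).subset
    rintro ℓ ⟨hℓ, h0⟩
    have : Fact ℓ.Prime := ⟨hℓ⟩
    by_contra hlt
    rw [Set.mem_Iic, not_le] at hlt
    have hcop : Nat.Coprime ℓ (Nat.card k) :=
      (Nat.Prime.coprime_iff_not_dvd hℓ).2 fun h => by
        have := Nat.le_of_dvd Nat.card_pos h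
        omega
    obtain ⟨u, v, huv⟩ := Nat.isCoprime_iff_coprime.2 hcop
    have h1 := congrArg (Int.cast (R := k)) huv
    push_cast at h1
    have : Fintype k := Fintype.ofFinite k
    have h2 : ((Nat.card k : ℕ) : k) = 0 := by
      rw [Nat.card_eq_fintype_card]
      exact FiniteField.cast_card_eq_zero k
    rw [h0, h2] at h1
    simp at h1
  refine ((square_density H hH0 hreal (Nat.card k)).diff hfin).mono ?_
  rintro ℓ ⟨⟨h1, h2, h3, h4⟩, h5⟩
  refine ⟨h1, h2, fun h => h5 ⟨h1, h⟩, h3, ?_, ?_⟩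
  · intro z hz h
    apply h4 z hz
    rw [hH, Polynomial.map_mul, eval_mul, h, zero_mul]
  · intro v hv z hz h
    apply h4 z hz
    rw [hH, Polynomial.map_mul, eval_mul, Polynomial.map_prod, eval_prod,
      Finset.prod_eq_zero hv h, mul_zero]

end main

end Pool.Agent.Y701.GV
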