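import Pool.Agent.W343.BSD.Stmt

/-!
Echelon forms of finite families of polynomials with respect to a place, and reductions of integral
polynomials.
-/

set_option autoImplicit false
set_option linter.all false
set_option maxHeartbeats 1000000

open FF Module Pool.Agent.W343.BSD MvPolynomial

namespace Pool.Agent.Y701.GV

section ech

variable {k K : Type} [Field k] [Field K] [Algebra k K] {σ : Type}

theorem reg_sub {v : Place k K} {a b : K} (ha : v.Reg a) (hb : v.Reg b) : v.Reg (a - b) := by
  rw [sub_eq_add_neg]
  exact v.reg_add ha (v.reg_neg hb)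

theorem echelon (v : Place k K) (J : Submodule K (MvPolynomial σ K)) {n : ℕ}
    (g : Fin n → MvPolynomial σ K) (hg : ∀ i, g i ∈ J) :
    ∃ (ι : Type) (_ : Fintype ι) (p : ι → (σ →₀ ℕ)) (m : ι → MvPolynomial σ K),
      (∀ i, m i ∈ J) ∧ (∀ i a, v.Reg ((m i).coeff a)) ∧
      (∀ i, (m i).coeff (p i) = 1) ∧ (∀ i j, i ≠ j → (m i).coeff (p j) = 0) ∧
      ∀ i, g i = ∑ j, (g i).coeff (p j) • m j := by
  classical
  induction n with
  | zero =>
    exact ⟨Empty, inferInstance, fun i => i.elim, fun i => i.elim, fun i => i.elim,
      fun i => i.elim, fun i => i.elim, fun i => i.elim, fun i => i.elim0⟩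
  | succ n ih =>
    obtain ⟨ι, iι, p, m, hJ, hr, h1, h0, hs⟩ := ih (fun i => g i.castSucc) (fun i => hg _)
    set g' := g (Fin.last n) - ∑ j, (g (Fin.last n)).coeff (p j) • m j with hg'
    by_cases hz : g' = 0
    · refine ⟨ι, iι, p, m, hJ, hr, h1, h0, fun i => ?_⟩
      refine Fin.lastCases ?_ (fun i => ?_) i
      · exact sub_eq_zero.1 hz
      · exact hs i
    · have hsup : g'.support.Nonempty := by
        rw [Finset.nonempty_iff_ne_empty, Ne, MvPolynomial.support_eq_empty]
        exact hz
      obtain ⟨a, ha, hmin⟩ := Finset.exists_min_image g'.support (fun b => v.ord (g'.coeff b)) hsup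
      have hga : g'.coeff a ≠ 0 := MvPolynomial.mem_support_iff.1 ha
      set M := (g'.coeff a)⁻¹ • g' with hM
      have hMr : ∀ b, v.Reg (M.coeff b) := by
        intro b
        rw [hM, coeff_smul, smul_eq_mul]
        by_cases hb : g'.coeff b = 0
        · rw [hb, mul_zero]
          exact v.reg_zero
        · right
          rw [v.ord_mul (inv_ne_zero hga) hb, v.ord_inv]
          have := hmin b (MvPolynomial.mem_support_iff.2 hb)
          omega
      have hMa : M.coeff a = 1 := by
        rw [hM, coeff_smul, smul_eq_mul, inv_mul_cancel₀ hga]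
      have hgp : ∀ j, g'.coeff (p j) = 0 := by
        intro j
        rw [hg', coeff_sub, coeff_sum, Finset.sum_eq_single j, coeff_smul, h1, smul_eq_mul,
          mul_one, sub_self]
        · intro i _ hij
          rw [coeff_smul, h0 i j hij, smul_zero]
        · intro h
          exact absurd (Finset.mem_univ j) h
      have hMp : ∀ j, M.coeff (p j) = 0 := by
        intro j
        rw [hM, coeff_smul, hgp, smul_zero]
      have hg'J : g' ∈ J := J.sub_mem (hg _) (J.sum_mem fun j _ => J.smul_mem _ (hJ j))
      have hMJ : M ∈ J := J.smul_mem _ hg'J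
      have key : ∀ f : MvPolynomial σ K, ∀ c : K, f = c • M + ∑ j, f.coeff (p j) • m j →
          f = f.coeff a • M + ∑ j, f.coeff (p j) • (m j - (m j).coeff a • M) := by
        intro f c hf
        have hc : f.coeff a = c + ∑ j, f.coeff (p j) * (m j).coeff a := by
          conv_lhs => rw [hf]
          rw [coeff_add, coeff_smul, hMa, smul_eq_mul, mul_one, coeff_sum]
          simp only [coeff_smul, smul_eq_mul]
        rw [hc]
        conv_lhs => rw [hf]
        simp only [smul_sub, Finset.sum_sub_distrib, smul_smul, add_smul, Finset.sum_smul]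
        abel
      refine ⟨Option ι, inferInstance, fun o => o.elim a p,
        fun o => o.elim M fun i => m i - (m i).coeff a • M, ?_, ?_, ?_, ?_, ?_⟩
      · rintro (_ | i)
        · exact hMJ
        · exact J.sub_mem (hJ i) (J.smul_mem _ hMJ)
      · rintro (_ | i) b
        · exact hMr b
        · show v.Reg ((m i - (m i).coeff a • M).coeff b)
          rw [coeff_sub, coeff_smul, smul_eq_mul]
          exact reg_sub (hr i b) (v.reg_mul (hr i a) (hMr b))
      · rintro (_ | i)
        · exact hMa
        · show (m i - (m i).coeff a • M).coeff (p i) = 1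
          rw [coeff_sub, coeff_smul, hMp, smul_zero, sub_zero, h1]
      · rintro (_ | i) (_ | j) hij
        · exact absurd rfl hij
        · exact hMp j
        · show (m i - (m i).coeff a • M).coeff a = 0
          rw [coeff_sub, coeff_smul, hMa, smul_eq_mul, mul_one, sub_self]
        · show (m i - (m i).coeff a • M).coeff (p j) = 0
          rw [coeff_sub, coeff_smul, hMp, smul_zero, sub_zero, h0 i j fun h => hij (by rw [h])]
      · intro i
        rw [Fintype.sum_option]
        refine Fin.lastCases ?_ (fun i => ?_) i
        · refine key (g (Fin.last n)) (g'.coeff a) ?_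
          rw [hM, smul_smul, mul_inv_cancel₀ hga, one_smul, hg', sub_add_cancel]
        · refine key (g i.castSucc) 0 ?_
          rw [zero_smul, zero_add]
          exact hs i

end ech

section red

variable {k L : Type} [Field k] [Field L] [Algebra k L] {σ : Type}

/-- The reduction at the place `w` of a polynomial with coefficients regular at `w`. -/
noncomputable def reduction (w : Place k L) (g : MvPolynomial σ L) : MvPolynomial σ (S.Res w) :=
  ∑ m ∈ g.support, MvPolynomial.monomial m (S.red w (g.coeff m))

theorem sred (w : Place k L) (f : L) : S.red w f = w.red f := rfl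

theorem coeff_reduction (w : Place k L) (g : MvPolynomial σ L) (m : σ →₀ ℕ) :
    (reduction w g).coeff m = S.red w (g.coeff m) := by
  classical
  rw [reduction, coeff_sum]
  simp only [coeff_monomial]
  rw [Finset.sum_ite_eq' g.support m]
  split_ifs with h
  · rfl
  · rw [MvPolynomial.notMem_support_iff.1 h, sred, w.red_zero]
    rfl

theorem reduction_smul {w : Place k L} {c : L} (hc : w.Reg c) {g : MvPolynomial σ L}
    (hg : ∀ m, w.Reg (g.coeff m)) :
    reduction w (c • g) = C (S.red w c) * reduction w g := by
  ext m
  rw [coeff_reduction, coeff_C_mul, coeff_reduction, coeff_smul, smul_eq_mul, sred, sred, sred,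
    w.red_mul hc (hg m)]
  rfl

theorem reg_sum {w : Place k L} {ι : Type} (s : Finset ι) (f : ι → L) (h : ∀ i ∈ s, w.Reg (f i)) :
    w.Reg (∑ i ∈ s, f i) := by
  classical
  induction s using Finset.induction_on with
  | empty => rw [Finset.sum_empty]; exact w.reg_zero
  | insert a s ha ih =>
    rw [Finset.sum_insert ha]
    exact w.reg_add (h a (Finset.mem_insert_self a s))
      (ih fun i hi => h i (Finset.mem_insert_of_mem hi))

theorem reduction_sum {w : Place k L} {ι : Type} (s : Finset ι) (f : ι → MvPolynomial σ L)
    (h : ∀ i ∈ s, ∀ m, w.Reg ((f i).coeff m)) :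
    reduction w (∑ i ∈ s, f i) = ∑ i ∈ s, reduction w (f i) := by
  classical
  induction s using Finset.induction_on with
  | empty =>
    rw [Finset.sum_empty, Finset.sum_empty]
    ext m
    rw [coeff_reduction, coeff_zero, coeff_zero, sred, w.red_zero]
    rfl
  | insert a s ha ih =>
    rw [Finset.sum_insert ha, Finset.sum_insert ha,
      ← ih fun i hi => h i (Finset.mem_insert_of_mem hi)]
    ext m
    have h2 : w.Reg (coeff m (∑ i ∈ s, f i)) := by
      rw [coeff_sum]
      exact reg_sum _ _ fun i hi => h i (Finset.mem_insert_of_mem hi) m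
    rw [coeff_add, coeff_reduction, coeff_reduction, coeff_reduction, coeff_add, sred, sred, sred,
      w.red_add (h a (Finset.mem_insert_self a s) m) h2]
    rfl

end red

section span

variable {K L : Type} [Field K] [Field L] [Algebra K L] {σ : Type}

/-- the elements of the extended ideal -/
theorem mem_span_map (F : Set (MvPolynomial σ K)) {g : MvPolynomial σ L}
    (hg : g ∈ Ideal.span (MvPolynomial.map (algebraMap K L) '' F)) :
    ∃ (n : ℕ) (l : Fin n → L) (f : Fin n → MvPolynomial σ K), (∀ i, f i ∈ Ideal.span F) ∧
      g = ∑ i, l i • MvPolynomial.map (algebraMap K L) (f i) := by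
  classical
  set φ := MvPolynomial.map (σ := σ) (algebraMap K L) with hφ
  set N : Submodule L (MvPolynomial σ L) :=
    Submodule.span L (φ '' (Ideal.span F : Set (MvPolynomial σ K))) with hN
  have hmul : ∀ (p : MvPolynomial σ L) (x : MvPolynomial σ L), x ∈ N → p * x ∈ N := by
    intro p x hx
    induction p using MvPolynomial.induction_on' with
    | monomial a c =>
      induction hx using Submodule.span_induction with
      | mem x hx =>
        obtain ⟨f, hf, rfl⟩ := hx
        have e : (MvPolynomial.monomial a c : MvPolynomial σ L) * φ f =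
            c • φ (MvPolynomial.monomial a 1 * f) := by
          rw [map_mul, hφ, map_monomial, map_one, smul_eq_C_mul, ← mul_assoc, C_mul_monomial,
            mul_one]
        rw [e]
        exact N.smul_mem _ (Submodule.subset_span ⟨_, (Ideal.span F).mul_mem_left _ hf, rfl⟩)
      | zero => rw [mul_zero]; exact N.zero_mem
      | add x y _ _ hx hy => rw [mul_add]; exact N.add_mem hx hy
      | smul r x _ hx => rw [mul_smul_comm]; exact N.smul_mem _ hx
    | add p q hp hq => rw [add_mul]; exact N.add_mem hp hq
  have hgN : g ∈ N := by
    induction hg using Submodule.span_induction with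
    | mem x hx =>
      obtain ⟨f, hf, rfl⟩ := hx
      exact Submodule.subset_span ⟨f, Ideal.subset_span hf, rfl⟩
    | zero => exact N.zero_mem
    | add x y _ _ hx hy => exact N.add_mem hx hy
    | smul r x _ hx => exact hmul r x hx
  rw [hN, Submodule.mem_span_set'] at hgN
  obtain ⟨n, l, f, hf⟩ := hgN
  have hf' : ∀ i, ∃ x ∈ Ideal.span F, φ x = f i := fun i => (f i).2
  choose x hx hx' using hf'
  exact ⟨n, l, x, hx, by rw [← hf]; exact Finset.sum_congr rfl fun i _ => by rw [hx' i]⟩

end span

end Pool.Agent.Y701.GV
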