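import Pool.Agent.Y701.GV.Base
import Pool.Agent.Y701.R1.Fixed

/-!
The bound over the Galois extensions of prime power degree of a constant extension, for a fixed prime.
-/

set_option autoImplicit false
set_option linter.all false
set_option maxHeartbeats 4000000

open FF Module

namespace Pool.Agent.Y701.GV

open Pool.Agent.W343.BSD Pool.Agent.Y701.QF
open Pool.Agent.Y701.PE (IsExp sub toC LiesOver)
open Pool.Agent.H123R3.ZT Pool.Agent.Y701.CB

section inj

open PowerSeries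

theorem expand_inj {R : Type*} [CommRing R] {d : ℕ} (hd : d ≠ 0) {A B : PowerSeries R}
    (h : PowerSeries.expand d hd A = PowerSeries.expand d hd B) : A = B := by
  ext n
  have h1 := congrArg (PowerSeries.coeff (d * n)) h
  rw [PowerSeries.coeff_expand, PowerSeries.coeff_expand, if_pos (dvd_mul_right _ _),
    if_pos (dvd_mul_right _ _), Nat.mul_div_cancel_left _ (Nat.pos_of_ne_zero hd)] at h1
  exact h1

/-- quotients of power series by polynomials and products over the roots of unity -/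
theorem norm_quot {F : Type} [Field F] {r : ℕ} (hr : r ≠ 0) {ζ : F} (hζ : IsPrimitiveRoot ζ r)
    {p p' : PowerSeries F} (h : PowerSeries.expand r hr p' =
      ∏ i ∈ Finset.range r, rescale (ζ ^ i) p) {U V U' V' : Polynomial F}
    (hU : p * (V : PowerSeries F) = (U : PowerSeries F))
    (hV' : Polynomial.expand F r V' = ∏ i ∈ Finset.range r,
      V.comp (Polynomial.C (ζ ^ i) * Polynomial.X))
    (hU' : Polynomial.expand F r U' = ∏ i ∈ Finset.range r,
      U.comp (Polynomial.C (ζ ^ i) * Polynomial.X)) :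
    p' * (V' : PowerSeries F) = (U' : PowerSeries F) := by
  apply expand_inj hr
  rw [map_mul, ← coe_expand' hr, ← coe_expand' hr, hV', hU', h, coe_prod', coe_prod',
    ← Finset.prod_mul_distrib]
  refine Finset.prod_congr rfl fun i _ => ?_
  rw [← rescale_coe, ← rescale_coe, ← map_mul, hU]

end inj

section fixed

open Polynomial

variable {k K k' K' : Type} [Field k] [Finite k] [Field K] [Algebra k K] [FF.IsFF k K]
  [Field k'] [Finite k'] [Field K'] [Algebra k' K'] [Algebra k k'] [Algebra k K'] [Algebra K K']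
  [IsScalarTower k K K'] [IsScalarTower k k' K'] [FF.IsFF k K'] [FF.IsFF k' K']
  [FiniteDimensional K K'] {n : ℕ}

/-- the product over the constant extension, modulo `l` -/
theorem const_poly (hconst : ∀ a : K, IsAlgebraic k a → a ∈ (algebraMap k K).range)
    (hfr : finrank K K' = finrank k k') {c : ℤ[X]} {F : Set (MvPolynomial (Fin (n + 1)) K)}
    {Λ Λ' : PowerSeries ℤ} (hK : IsLFunction k c F Λ)
    (hK' : IsLFunction k' c (MvPolynomial.map (algebraMap K K') '' F) Λ')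
    {l : ℕ} [hl : Fact l.Prime] (hlk : (l : k) ≠ 0) {ζ : ZMod l}
    (hζ : IsPrimitiveRoot ζ (finrank k k')) (hrl : ((finrank k k' : ℕ) : ZMod l) ≠ 0)
    {V G : ℤ[X]} {ρ b : ℕ} (hV : V.coeff 0 = 1)
    (hP : Λ * (V : PowerSeries ℤ) =
      (((1 - C ((Nat.card k : ℤ) ^ b) * X) ^ ρ * G : ℤ[X]) : PowerSeries ℤ))
    (hG : ∀ i < finrank k k',
      (G.map (Int.castRingHom (ZMod l))).eval (ζ ^ i * (((Nat.card k : ℕ) : ZMod l) ^ b)⁻¹) ≠ 0) :
    ∃ U' V' : (ZMod l)[X], V' ≠ 0 ∧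
      redL l Λ' * (V' : PowerSeries (ZMod l)) = (U' : PowerSeries (ZMod l)) ∧
      U'.rootMultiplicity (((Nat.card k' : ℕ) : ZMod l) ^ b)⁻¹ = ρ := by
  classical
  have : Module.Finite k k' := Module.Finite.of_finite
  have hr0 : finrank k k' ≠ 0 := finrank_pos.ne'
  obtain ⟨Q, hQ, hKe⟩ := hK
  obtain ⟨Q', hQ', hLe⟩ := hK'
  choose a ha hae using hQ
  choose a' ha' hae' using hQ'
  simp only [S.deg_eq] at hKe hLe
  have h1 := base_change (R := ZMod l) hconst hfr hae hae'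
    (fun v w n' f h hd m' hm' => trace_over c h hd (ha v) (ha' (upPlace w)) hm') hKe hLe hζ hr0
  have hq0 := card_ne_zero_mod (k := k) hlk
  have hx0 : ((((Nat.card k : ℕ) : ZMod l)) ^ b)⁻¹ ≠ 0 := inv_ne_zero (pow_ne_zero _ hq0)
  set U := (1 - C (((Nat.card k : ℕ) : ZMod l) ^ b) * X) ^ ρ *
    G.map (Int.castRingHom (ZMod l)) with hU
  set V0 := V.map (Int.castRingHom (ZMod l)) with hV0
  have hmap : (((1 - C ((Nat.card k : ℤ) ^ b) * X) ^ ρ * G : ℤ[X]).map
      (Int.castRingHom (ZMod l))) = U := by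
    rw [hU, Polynomial.map_mul, Polynomial.map_pow, Polynomial.map_sub, Polynomial.map_one,
      Polynomial.map_mul, Polynomial.map_C, Polynomial.map_X]
    have : (Int.castRingHom (ZMod l)) ((Nat.card k : ℤ) ^ b) =
        ((Nat.card k : ℕ) : ZMod l) ^ b := by simp
    rw [this]
  have h2 : redL l Λ * (V0 : PowerSeries (ZMod l)) = (U : PowerSeries (ZMod l)) := by
    have h := congrArg (redL l) hP
    rw [map_mul, redL_poly, redL_poly, hmap] at h
    exact h
  obtain ⟨V', hV'⟩ := norm_poly hr0 hζ V0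
  obtain ⟨U', hU'⟩ := norm_poly hr0 hζ U
  have hV0ne : V0 ≠ 0 := Pool.Agent.Y701.PE.map_ne_of_coeff hV
  have hlin : (1 - C (((Nat.card k : ℕ) : ZMod l) ^ b) * X : (ZMod l)[X]) ≠ 0 := by
    intro h
    have h1 := congrArg (Polynomial.eval 0) h
    simp at h1
  have hG0 : G.map (Int.castRingHom (ZMod l)) ≠ 0 := by
    intro h
    apply hG 0 (Nat.pos_of_ne_zero hr0)
    rw [h, eval_zero]
  have hU0 : U ≠ 0 := mul_ne_zero (pow_ne_zero _ hlin) hG0
  obtain ⟨n1, -⟩ := norm_mult hrl hζ hV0ne hV' hx0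
  obtain ⟨-, n2⟩ := norm_mult hrl hζ hU0 hU' hx0
  refine ⟨U', V', n1, norm_quot hr0 hζ h1 h2 hV' hU', ?_⟩
  have hcard : (((Nat.card k' : ℕ) : ZMod l) ^ b)⁻¹ =
      ((((Nat.card k : ℕ) : ZMod l)) ^ b)⁻¹ ^ finrank k k' := by
    rw [Module.natCard_eq_pow_finrank (K := k) (V := k'), inv_pow, ← pow_mul, mul_comm b]
    push_cast
    rw [← pow_mul]
  rw [hcard, n2]
  have hterm : ∀ i ∈ Finset.range (finrank k k'),
      U.rootMultiplicity (ζ ^ i * (((Nat.card k : ℕ) : ZMod l) ^ b)⁻¹) =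
      if i = 0 then ρ else 0 := by
    intro i hi
    have hi' := Finset.mem_range.1 hi
    rw [hU, rm_mul _ (pow_ne_zero _ hlin) hG0, rm_pow _ hlin, rm_eq_zero (hG i hi'), add_zero]
    split_ifs with h0
    · rw [h0, pow_zero, one_mul, rm_linear (pow_ne_zero _ hq0), mul_one]
    · rw [rm_eq_zero, mul_zero]
      rw [eval_sub, eval_one, eval_mul, eval_C, eval_X]
      intro h1
      have h2 : ζ ^ i = 1 := by
        have h3 : ((Nat.card k : ℕ) : ZMod l) ^ b *
            (ζ ^ i * (((Nat.card k : ℕ) : ZMod l) ^ b)⁻¹) = ζ ^ i := by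
          rw [mul_comm (ζ ^ i), ← mul_assoc, mul_inv_cancel₀ (pow_ne_zero _ hq0), one_mul]
        rw [h3] at h1
        exact (sub_eq_zero.1 h1).symm
      exact h0 (by
        have h3 := hζ.pow_eq_one_iff_dvd i |>.1 h2
        exact Nat.eq_zero_of_dvd_of_lt h3 hi')
  rw [Finset.sum_congr rfl hterm, Finset.sum_ite_eq',
    if_pos (Finset.mem_range.2 (Nat.pos_of_ne_zero hr0))]

/-- the Euler factors over the constant extension -/
theorem const_loc (hconst : ∀ a : K, IsAlgebraic k a → a ∈ (algebraMap k K).range)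
    (hfr : finrank K K' = finrank k k') {c : ℤ[X]} {F : Set (MvPolynomial (Fin (n + 1)) K)}
    {l : ℕ} [hl : Fact l.Prime] (hlk : (l : k) ≠ 0) {ζ : ZMod l}
    (hζ : IsPrimitiveRoot ζ (finrank k k')) (hrl : ((finrank k k' : ℕ) : ZMod l) ≠ 0) (b : ℕ)
    {v : Place k K} (w : Place k' K') {e : ℕ} (h : Over (downPlace (k := k) w) v e)
    {P P' : PowerSeries ℤ} (hPn : IsNumerator c v F P)
    (hPn' : IsNumerator c w (MvPolynomial.map (algebraMap K K') '' F) P')
    {A Cc : (ZMod l)[X]} (hC : Cc ≠ 0)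
    (hAC : redL l P * (Cc : PowerSeries (ZMod l)) = (A : PowerSeries (ZMod l)))
    (hA : ∀ i : ℕ, A.eval (ζ ^ i * (((Nat.card k : ℕ) : ZMod l) ^ (b * v.deg))⁻¹) ≠ 0) :
    ∃ A' C' : (ZMod l)[X], C' ≠ 0 ∧
      redL l P' * (C' : PowerSeries (ZMod l)) = (A' : PowerSeries (ZMod l)) ∧
      A'.rootMultiplicity (((Nat.card (S.Res w) : ℕ) : ZMod l) ^ b)⁻¹ = 0 := by
  classical
  have : Module.Finite k k' := Module.Finite.of_finite
  have hr : finrank k k' ≠ 0 := finrank_pos.ne'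
  obtain ⟨μ, θ, hμ, hm, hroot, hdeg⟩ := exists_gen (k := k) (k' := k') (K' := K')
  set r := finrank k k' with hrdef
  have hr0 : 0 < r := Nat.pos_of_ne_zero hr
  obtain ⟨S', hS1, hS2, hS3⟩ := const_fiber (K' := K') hμ hm hconst hroot
    (hfr.trans hdeg.symm) v
  rw [hdeg] at hS2 hS3
  set w0 : Place k K' := downPlace (k := k) w with hw0
  obtain ⟨h2, h3⟩ := hS2 w0 (hS1 w0 e h)
  have hdK : ∀ v : Place k K, v.deg ≠ 0 := fun w => (Pool.Agent.H525R3.FFp.deg_pos w).ne'
  set d := v.deg with hd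
  have hd0 : 0 < d := Nat.pos_of_ne_zero (hdK v)
  obtain ⟨f, hf⟩ := Nat.dvd_lcm_left d r
  have hlpos : 0 < Nat.lcm d r := Nat.lcm_pos hd0 hr0
  have hf0 : 0 < f := by
    rcases Nat.eq_zero_or_pos f with h0 | h0
    · rw [h0, mul_zero] at hf; omega
    · exact h0
  have hgcd : Nat.gcd r d * f = r := by
    have h1 := Nat.gcd_mul_lcm d r
    rw [hf, Nat.gcd_comm] at h1
    have h2 : d * (Nat.gcd r d * f) = d * r := by rw [← h1]; ring
    exact Nat.eq_of_mul_eq_mul_left hd0 h2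
  have hgpos : 0 < Nat.gcd r d := Nat.gcd_pos_of_pos_left _ hr0
  have hprim : IsPrimitiveRoot (ζ ^ d) f := by
    have h1 : orderOf (ζ ^ d) = f := by
      rw [orderOf_pow' ζ hd0.ne', ← hζ.eq_orderOf]
      exact Nat.div_eq_of_eq_mul_right hgpos hgcd.symm
    rw [← h1]
    exact IsPrimitiveRoot.orderOf _
  have hfl : ((f : ℕ) : ZMod l) ≠ 0 := by
    intro h
    apply hrl
    rw [← hgcd]
    push_cast
    rw [h, mul_zero]
  have h4 : w0.deg = d * f := by rw [h3, hf]
  obtain ⟨a, ha, hae⟩ := hPn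
  obtain ⟨a', ha', hae'⟩ := hPn'
  have hup : upPlace (k' := k') w0 = w := rfl
  have h5 : ∀ m, m ≠ 0 → a' m = a (f * m) := fun m hm' =>
    trace_over (k' := k') c h2 h4 ha (a' := a') ha' hm'
  have h6 := prod_roots (R := ZMod l) hf0.ne' hprim hae hae' h5
  have h7 : PowerSeries.expand f hf0.ne' (redL l P') = ∏ j ∈ Finset.range f,
      PowerSeries.rescale ((ζ ^ d) ^ j) (redL l P) := by
    have h8 : PowerSeries.map (Int.castRingHom (ZMod l)) (sub f P') =
        PowerSeries.expand f hf0.ne' (redL l P') := by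
      rw [Pool.Agent.Y701.PE.map_sub', Pool.Agent.Y701.PE.sub_eq hf0.ne']
    rw [← h8, h6]
  obtain ⟨C', hC'⟩ := norm_poly hf0.ne' hprim Cc
  obtain ⟨A', hA'⟩ := norm_poly hf0.ne' hprim A
  have hq0 := card_ne_zero_mod (k := k) hlk
  have hy0 : ((((Nat.card k : ℕ) : ZMod l)) ^ (b * d))⁻¹ ≠ 0 :=
    inv_ne_zero (pow_ne_zero _ hq0)
  have hA0 : A ≠ 0 := by
    rintro rfl
    exact hA 0 eval_zero
  obtain ⟨n1, -⟩ := norm_mult hfl hprim hC hC' hy0
  obtain ⟨-, n2⟩ := norm_mult hfl hprim hA0 hA' hy0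
  refine ⟨A', C', n1, norm_quot hf0.ne' hprim h7 hAC hC' hA', ?_⟩
  have hcard : (((Nat.card (S.Res w) : ℕ) : ZMod l) ^ b)⁻¹ =
      ((((Nat.card k : ℕ) : ZMod l)) ^ (b * d))⁻¹ ^ f := by
    have h9 : Nat.card (S.Res w) = Nat.card (S.Res w0) := rfl
    rw [h9, Pool.Agent.Y701.PE.card_res, h4, inv_pow, ← pow_mul]
    push_cast
    rw [← pow_mul]
    congr 2
    ring
  rw [hcard, n2]
  refine Finset.sum_eq_zero fun j _ => rm_eq_zero ?_
  rw [← pow_mul]
  exact hA (d * j)

end fixed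

end Pool.Agent.Y701.GV
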