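import Pool.Agent.Y701.GV.Mu

/-!
The exact formula modulo `l` for projective varieties over function fields.
-/

set_option autoImplicit false
set_option linter.all false
set_option maxHeartbeats 4000000

open FF Module Pool.Agent.W343.BSD PowerSeries
open scoped LinearAlgebra.Projectivization

namespace Pool.Agent.Y701.GV

open Pool.Agent.Y701.PE

section final

variable {k K k' L : Type} [Field k] [Finite k] [Field K] [Algebra k K] [FF.IsFF k K]
  [Field k'] [Finite k'] [Field L] [Algebra k' L] [Algebra k k'] [Algebra k L] [Algebra K L]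
  [IsScalarTower k K L] [IsScalarTower k k' L] [FF.IsFF k L] [FF.IsFF k' L]
  [FiniteDimensional K L] [IsGalois K L]

theorem coe_expand' {R : Type*} [CommRing R] {d : ℕ} (hd : d ≠ 0) (p : Polynomial R) :
    ((Polynomial.expand R d p : Polynomial R) : PowerSeries R) =
      PowerSeries.expand d hd (p : PowerSeries R) := by
  ext n
  rw [Polynomial.coeff_coe, PowerSeries.coeff_expand,
    Polynomial.coeff_expand (Nat.pos_of_ne_zero hd)]
  split_ifs
  · rw [Polynomial.coeff_coe]
  · rfl

theorem map_expand_sub {l : ℕ} [Fact l.Prime] {d : ℕ} (hd : d ≠ 0) {P : PowerSeries ℤ}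
    {A C : Polynomial (ZMod l)}
    (h : redL l P * (C : PowerSeries (ZMod l)) = (A : PowerSeries (ZMod l))) :
    redL l (sub d P) * ((Polynomial.expand (ZMod l) d C : Polynomial (ZMod l)) :
      PowerSeries (ZMod l)) = ((Polynomial.expand (ZMod l) d A : Polynomial (ZMod l)) :
        PowerSeries (ZMod l)) := by
  have e1 : redL l (sub d P) = sub d (redL l P) := Pool.Agent.Y701.PE.map_sub' _ _ _
  rw [e1, coe_expand' hd, coe_expand' hd, ← h, sub_eq hd, ← map_mul]

theorem kida_mod (hconst : ∀ a : K, IsAlgebraic k a → a ∈ (algebraMap k K).range)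
    {l s : ℕ} [hl : Fact l.Prime] (hlk : (l : k) ≠ 0) (hn : finrank K L = l ^ s)
    {e : Place k K → ℕ} (he : ∀ (v : Place k K) (w : Place k L) (n : ℕ), Over w v n → n = e v)
    (B : Finset (Place k K)) (hB : ∀ v, v ∉ B → e v = 1)
    {P : Place k K → PowerSeries ℤ} {P' : Place k' L → PowerSeries ℤ}
    {a : Place k K → ℕ → ℤ} {a' : Place k' L → ℕ → ℤ} (hP : ∀ v, IsExp (a v) (P v))
    (hP' : ∀ w, IsExp (a' w) (P' w))
    (haa : ∀ (v : Place k K) (w : Place k L) (n f : ℕ), Over w v n → w.deg = v.deg * f →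
      ∀ m, m ≠ 0 → a' (upPlace w) m = a v (f * m))
    {Λ Λ' : PowerSeries ℤ}
    (hK : Λ * eulerProd (fun v : Place k K => v.deg) (fun v => sub v.deg (P v)) = 1)
    (hL : Λ' * eulerProd (fun w : Place k' L => w.deg) (fun w => sub w.deg (P' w)) = 1)
    {U V : Polynomial (ZMod l)} (hV : V ≠ 0)
    (hU : redL l Λ * (V : PowerSeries (ZMod l)) = (U : PowerSeries (ZMod l)))
    {A C : Place k K → Polynomial (ZMod l)} (hC : ∀ v ∈ B, C v ≠ 0)
    (hAC : ∀ v ∈ B, redL l (P v) * (C v : PowerSeries (ZMod l)) = (A v : PowerSeries (ZMod l)))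
    (b : ℕ) (R W : Polynomial ℤ) (hW : W.coeff 0 = 1)
    (hG : Λ' * (W : PowerSeries ℤ) = (R : PowerSeries ℤ)) :
    finrank k k' * mu l (Nat.card k') b R +
        finrank K L * V.rootMultiplicity (((Nat.card k : ℕ) : ZMod l) ^ b)⁻¹ +
        ∑ v ∈ B, (finrank K L - finrank K L / e v) * (l ^ padicValNat l v.deg *
          (C v).rootMultiplicity ((((Nat.card k : ℕ) : ZMod l) ^ b)⁻¹ ^ v.deg)) =
      finrank k k' * mu l (Nat.card k') b W +
        finrank K L * U.rootMultiplicity (((Nat.card k : ℕ) : ZMod l) ^ b)⁻¹ +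
        ∑ v ∈ B, (finrank K L - finrank K L / e v) * (l ^ padicValNat l v.deg *
          (A v).rootMultiplicity ((((Nat.card k : ℕ) : ZMod l) ^ b)⁻¹ ^ v.deg)) := by
  classical
  have hD := fun v : Place k K => exists_galoisFiber (L := L) v
  choose S e' f D using hD
  have hee : ∀ v, e' v = e v := fun v => by
    obtain ⟨w, hw⟩ := (D v).nonempty
    exact he v w _ ((D v).isOver w hw)
  obtain rfl : e' = e := funext hee
  have : FiniteDimensional k k' := Module.Finite.of_finite
  have hr : finrank k k' ≠ 0 := finrank_pos.ne'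
  obtain ⟨i, hi⟩ := constants_pow (L := L) hconst hn hr
  have hq0 := card_ne_zero_mod (k := k) hlk
  have hdK : ∀ v : Place k K, v.deg ≠ 0 := fun w => (Pool.Agent.H525R3.FFp.deg_pos w).ne'
  have hdL : ∀ v : Place k L, v.deg ≠ 0 := fun w => (Pool.Agent.H525R3.FFp.deg_pos w).ne'
  -- the Euler products modulo `l`
  set g : Place k K → PowerSeries (ZMod l) := fun v => redL l (sub v.deg (P v)) with hg
  set g' : Place k L → PowerSeries (ZMod l) := fun w => redL l (sub w.deg (P' (upPlace w))) with hg'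
  have hg1 : ∀ v, (X : PowerSeries (ZMod l)) ^ v.deg ∣ g v - 1 := by
    intro v
    have h := map_dvd (redL l) (sub_mod (hdK v) (hP v).1)
    rwa [map_sub, map_one, map_pow, PowerSeries.map_X] at h
  have hg1' : ∀ w, (X : PowerSeries (ZMod l)) ^ w.deg ∣ g' w - 1 := by
    intro w
    have h := map_dvd (redL l) (sub_mod (hdL w) (hP' (upPlace w)).1)
    rwa [map_sub, map_one, map_pow, PowerSeries.map_X] at h
  have hgg : ∀ v, ∀ w ∈ S v, g' w = g v ^ f v := by
    intro v w hw
    obtain ⟨j, hj⟩ := fiber_pow (D v) hn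
    have h1 := dwork (l := l) (i := j) (hP v) (hP' (upPlace w)) (by
      intro n hn0
      rw [← hj]
      exact haa v w _ (f v) ((D v).isOver w hw) ((D v).deg w hw) n hn0)
    rw [← hj] at h1
    have hf0 : f v ≠ 0 := by
      rw [hj]
      exact pow_ne_zero _ hl.out.ne_zero
    show redL l (sub w.deg (P' (upPlace w))) = redL l (sub v.deg (P v)) ^ f v
    rw [(D v).deg w hw, ← Pool.Agent.Y701.PE.sub_sub _ _ (hdK v) hf0,
      Pool.Agent.Y701.PE.map_sub', h1, Pool.Agent.Y701.PE.sub_pow' (hdK v),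
      Pool.Agent.Y701.PE.map_sub']
  have hK1 : redL l Λ * eulerProd (fun v : FF.Place k K => v.deg) g = 1 := by
    have h := congrArg (redL l) hK
    rwa [map_mul, map_one, map_eulerProd (fun n => places_fin n)] at h
  have hLk : expand (finrank k k') hr Λ' *
      eulerProd (fun w : Place k L => w.deg) (fun w => sub w.deg (P' (upPlace w))) = 1 := by
    rw [euler_down hr fun w => (hP' w).1, ← map_mul, hL, map_one]
  have hL1 : redL l (expand (finrank k k') hr Λ') *
      eulerProd (fun v : FF.Place k L => v.deg) g' = 1 := by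
    have h := congrArg (redL l) hLk
    rwa [map_mul, map_one, map_eulerProd (fun n => places_fin n)] at h
  set Q0 : Polynomial ℤ := Polynomial.expand ℤ (finrank k k') R with hQ0
  set W0 : Polynomial ℤ := Polynomial.expand ℤ (finrank k k') W with hW0
  have hQ : redL l (expand (finrank k k') hr Λ') *
      ((W0.map (Int.castRingHom (ZMod l)) : Polynomial (ZMod l)) : PowerSeries (ZMod l)) =
      ((Q0.map (Int.castRingHom (ZMod l)) : Polynomial (ZMod l)) : PowerSeries (ZMod l)) := by
    rw [← redL_poly, ← redL_poly, ← map_mul, hW0, hQ0, coe_expand _ hr, coe_expand _ hr,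
      ← map_mul, hG]
  have hWne : W0.map (Int.castRingHom (ZMod l)) ≠ 0 := map_ne_of_coeff (by
    rw [hW0, coeff_zero_expand (Nat.pos_of_ne_zero hr), hW])
  have hbound := kida_mult (a := fun v => Polynomial.expand (ZMod l) v.deg (A v))
    (b := fun v => Polynomial.expand (ZMod l) v.deg (C v)) (U := U) (V := V)
    hn D B hB hg1 hg1' hgg hK1 hL1 hV hU hWne hQ
    (fun v hv => by
      rw [Ne, Polynomial.expand_eq_zero (Nat.pos_of_ne_zero (hdK v))]
      exact hC v hv)
    (fun v hv => map_expand_sub (hdK v) (hAC v hv)) (((Nat.card k : ℕ) : ZMod l) ^ b)⁻¹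
  have hx0 : ((((Nat.card k : ℕ) : ZMod l)) ^ b)⁻¹ ≠ 0 := inv_ne_zero (pow_ne_zero _ hq0)
  have e1 : ∀ (v : Place k K) (p : Polynomial (ZMod l)),
      (Polynomial.expand (ZMod l) v.deg p).rootMultiplicity (((Nat.card k : ℕ) : ZMod l) ^ b)⁻¹ =
        l ^ padicValNat l v.deg *
          p.rootMultiplicity ((((Nat.card k : ℕ) : ZMod l) ^ b)⁻¹ ^ v.deg) := fun v p =>
    rm_expand_all hx0 (hdK v) p
  simp only [e1] at hbound
  have hfr : l ^ padicValNat l (finrank k k') = finrank k k' := by
    rw [hi, padicValNat.prime_pow]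
  have e2 : ∀ p : Polynomial ℤ, ((Polynomial.expand ℤ (finrank k k') p).map
      (Int.castRingHom (ZMod l))).rootMultiplicity (((Nat.card k : ℕ) : ZMod l) ^ b)⁻¹ =
        finrank k k' * mu l (Nat.card k') b p := by
    intro p
    have h := mlt_eq_mu (l := l) (b := b) hq0 hr
      (Module.natCard_eq_pow_finrank (K := k) (V := k')) p
    rw [hfr] at h
    exact h
  rw [hQ0, hW0, e2, e2] at hbound
  rw [hn]
  exact hbound

end final

section fin

variable {k K k' L : Type} [Field k] [Finite k] [Field K] [Algebra k K]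
  [Field k'] [Finite k'] [Field L] [Algebra k' L] [Algebra k k'] [Algebra k L] [Algebra K L]
  [IsScalarTower k K L] [IsScalarTower k k' L] {n : ℕ}

/-- the formula for varieties -/
theorem var_formula (hKc : IsCurveField k K) (hLc : IsCurveField k' L)
    {l : ℕ} [hl : Fact l.Prime] (hlk : (l : k) ≠ 0) (hgal : IsGalois K L)
    (hpow : ∃ s : ℕ, finrank K L = l ^ s)
    {e : Place k K → ℕ} (he : ∀ (v : Place k K) (w : Place k' L) (n : ℕ), LiesOver w v n → n = e v)
    (B : Finset (Place k K)) (hB : ∀ v, v ∉ B → e v = 1) (c : Polynomial ℤ)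
    {F : Set (MvPolynomial (Fin (n + 1)) K)}
    {Λ Λ' : PowerSeries ℤ} (hK : IsLFunction k c F Λ)
    (hL : IsLFunction k' c (MvPolynomial.map (algebraMap K L) '' F) Λ')
    {U V : Polynomial (ZMod l)} (hV : V ≠ 0)
    (hU : redL l Λ * (V : PowerSeries (ZMod l)) = (U : PowerSeries (ZMod l)))
    {P : Place k K → PowerSeries ℤ} {A C : Place k K → Polynomial (ZMod l)}
    (hP : ∀ v ∈ B, IsNumerator c v F (P v) ∧
      redL l (P v) * (C v : PowerSeries (ZMod l)) = (A v : PowerSeries (ZMod l)) ∧ C v ≠ 0) (b : ℕ)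
    (R W : Polynomial ℤ) (hW : W.coeff 0 = 1)
    (hR : Λ' * (W : PowerSeries ℤ) = (R : PowerSeries ℤ)) :
    finrank k k' * mu l (Nat.card k') b R +
        finrank K L * V.rootMultiplicity (((Nat.card k : ℕ) : ZMod l) ^ b)⁻¹ +
        ∑ v ∈ B, (finrank K L - finrank K L / e v) * (l ^ padicValNat l (S.deg v) *
          (C v).rootMultiplicity (((Nat.card (S.Res v) : ℕ) : ZMod l) ^ b)⁻¹) =
      finrank k k' * mu l (Nat.card k') b W +
        finrank K L * U.rootMultiplicity (((Nat.card k : ℕ) : ZMod l) ^ b)⁻¹ +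
        ∑ v ∈ B, (finrank K L - finrank K L / e v) * (l ^ padicValNat l (S.deg v) *
          (A v).rootMultiplicity (((Nat.card (S.Res v) : ℕ) : ZMod l) ^ b)⁻¹) := by
  obtain ⟨s, hs⟩ := hpow
  have i0 : FF.IsFF k K := ⟨hKc.essFiniteType, hKc.trdeg_eq_one⟩
  have i1 : FiniteDimensional K L := Module.finite_of_finrank_pos (by
    rw [hs]; exact pow_pos hl.out.pos s)
  have i2 : FF.IsFF k L := isFF_of_finite (K := K)
  have i3 : FF.IsFF k' L := ⟨hLc.essFiniteType, hLc.trdeg_eq_one⟩
  have i4 := hgal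
  obtain ⟨Q, hQ, hKe⟩ := hK
  obtain ⟨Q', hQ', hLe⟩ := hL
  choose a ha hae using hQ
  choose a' ha' hae' using hQ'
  simp only [S.deg_eq] at hKe hLe
  have h1 := kida_mod hKc.algClosed hlk hs (fun v w n hov => he v (upPlace (k' := k') w) n
    ⟨hov.1, hov.2⟩) B hB hae hae' (fun v w n' f h hd m' hm' =>
      trace_over c h hd (ha v) (ha' (upPlace w)) hm') hKe hLe hV hU
    (fun v hv => (hP v hv).2.2) (A := A) (fun v hv => by
      rw [← (hP v hv).2.1, numerator_unique c v ⟨a v, ha v, hae v⟩ (hP v hv).1]) b R W hW hR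
  have e1 : ∀ v : Place k K, ((((Nat.card k : ℕ) : ZMod l) ^ b)⁻¹) ^ v.deg =
      (((Nat.card (S.Res v) : ℕ) : ZMod l) ^ b)⁻¹ := by
    intro v
    rw [card_res, inv_pow, ← pow_mul, mul_comm b]
    push_cast
    rw [← pow_mul]
  simp only [e1] at h1
  simp only [S.deg_eq]
  exact h1

/-- the constant coefficient of the product -/
theorem cc_lfun' (hLc : IsCurveField k' L) {c : Polynomial ℤ}
    {F : Set (MvPolynomial (Fin (n + 1)) L)}
    {Λ : PowerSeries ℤ} (hΛ : IsLFunction k' c F Λ) :
    PowerSeries.constantCoeff Λ = 1 := by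
  have i3 : FF.IsFF k' L := ⟨hLc.essFiniteType, hLc.trdeg_eq_one⟩
  exact cc_lfun hΛ

end fin

end Pool.Agent.Y701.GV
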