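import Pool.Agent.Y701.GV.Defs
import Pool.Agent.Y701.CB.Mult

/-!
The multiplicities modulo `l`, and the exact formula for projective varieties over function fields.
-/

set_option autoImplicit false
set_option linter.all false
set_option maxHeartbeats 4000000

open FF Module Pool.Agent.W343.BSD
open scoped LinearAlgebra.Projectivization

namespace Pool.Agent.Y701.GV

open Pool.Agent.Y701.PE (IsExp sub mlt)

section mu

open Polynomial

variable {l : ℕ} [hl : Fact l.Prime]

theorem expand_pow_card (a : ℕ) (p : (ZMod l)[X]) : expand (ZMod l) (l ^ a) p = p ^ l ^ a := by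
  induction a with
  | zero => rw [pow_zero, expand_one, pow_one]
  | succ a ih =>
    rw [pow_succ, mul_comm, expand_mul, ih, map_pow, ZMod.expand_card, ← pow_mul]

theorem rm_expand_all {x : ZMod l} (hx : x ≠ 0) {d : ℕ} (hd : d ≠ 0) (p : (ZMod l)[X]) :
    (expand (ZMod l) d p).rootMultiplicity x = l ^ padicValNat l d * p.rootMultiplicity (x ^ d) := by
  by_cases hp : p = 0
  · rw [hp, map_zero]
    simp
  obtain ⟨a, d', hd', rfl⟩ := Nat.exists_eq_pow_mul_and_not_dvd hd l hl.out.ne_one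
  have hd0 : d' ≠ 0 := by
    rintro rfl
    exact hd' (dvd_zero _)
  have h1 : (d' : ZMod l) ≠ 0 := by
    intro h
    exact hd' ((ZMod.natCast_eq_zero_iff _ _).1 h)
  have h2 : expand (ZMod l) d' p ≠ 0 := by
    rw [Ne, expand_eq_zero (Nat.pos_of_ne_zero hd0)]
    exact hp
  have h3 : padicValNat l (l ^ a * d') = a := by
    rw [padicValNat.mul (pow_ne_zero _ hl.out.ne_zero) hd0, padicValNat.prime_pow,
      padicValNat.eq_zero_of_not_dvd hd', add_zero]
  have h4 : x ^ (l ^ a * d') = x ^ d' := by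
    rw [mul_comm, pow_mul, ZMod.pow_card_pow]
  rw [h3, h4, expand_mul, expand_pow_card, rm_pow _ h2, Pool.Agent.Y701.CB.rm_expand h1 hx hp]

/-- The multiplicity of the zero `q ^ (-b)` of `A` modulo `l`. -/
noncomputable def mu (l : ℕ) [Fact l.Prime] (q b : ℕ) (A : ℤ[X]) : ℕ :=
  (A.map (Int.castRingHom (ZMod l))).rootMultiplicity (((q : ℕ) : ZMod l) ^ b)⁻¹

theorem mlt_eq_mu {q Q b d : ℕ} (hq : ((q : ℕ) : ZMod l) ≠ 0) (hd : d ≠ 0) (hQ : Q = q ^ d)
    (A : ℤ[X]) : mlt l (((q : ℕ) : ZMod l) ^ b)⁻¹ d A = l ^ padicValNat l d * mu l Q b A := by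
  unfold mlt mu
  rw [Polynomial.map_expand, rm_expand_all (inv_ne_zero (pow_ne_zero _ hq)) hd, hQ, inv_pow]
  congr 3
  push_cast
  rw [← pow_mul, ← pow_mul, mul_comm]

/-- The order of vanishing of `R` at `q ^ (-b)`. -/
noncomputable def order (q b : ℕ) (R : ℤ[X]) : ℕ :=
  (R.map (Int.castRingHom ℚ)).rootMultiplicity ((q : ℚ) ^ b)⁻¹

theorem order_le_mu {q b : ℕ} (hq : ((q : ℕ) : ZMod l) ≠ 0) {R : ℤ[X]}
    (hR : R.map (Int.castRingHom (ZMod l)) ≠ 0) : order q b R ≤ mu l q b R := by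
  have hq0 : q ≠ 0 := by
    rintro rfl
    exact hq Nat.cast_zero
  obtain ⟨G, hG⟩ := Pool.Agent.TH943.KD.dvd_of_mult (q := q ^ b) (pow_ne_zero _ hq0)
    (G := R) (r := order q b R) (by
      unfold order
      push_cast
      rfl)
  have e1 : R.map (Int.castRingHom (ZMod l)) =
      (1 - C (((q : ℕ) : ZMod l) ^ b) * X) ^ order q b R * G.map (Int.castRingHom (ZMod l)) := by
    conv_lhs => rw [hG]
    rw [Polynomial.map_mul, Polynomial.map_pow, Polynomial.map_sub, Polynomial.map_one,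
      Polynomial.map_mul, Polynomial.map_C, Polynomial.map_X]
    congr 5
    simp
  have hlin : (1 - C (((q : ℕ) : ZMod l) ^ b) * X : (ZMod l)[X]) ≠ 0 := by
    intro h
    have h1 := congrArg (Polynomial.eval 0) h
    simp at h1
  unfold mu
  rw [e1] at hR ⊢
  rw [rm_mul _ (left_ne_zero_of_mul hR) (right_ne_zero_of_mul hR), rm_pow _ hlin,
    rm_linear (pow_ne_zero b hq), mul_one]
  exact Nat.le_add_right _ _

end mu

end Pool.Agent.Y701.GV
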